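import Pool.Agent.helper11.VQ.Spec3a

/-!
# MP_07c750, project VQ, row OWZ (the norm of a word, abstract phase space)

Copy of the proof of row OPW of project RPQ (helper65).
-/

set_option autoImplicit false

open scoped ENNReal ComplexConjugate
open MeasureTheory Filter Set

namespace Pool.Agent.VQ

open Pool.Agent.RPQ (IsOp IsMul OProj wrd PJ und1 nst mks)

theorem OWZ_ind {Γ : Type} [Group Γ] {Y : Type} [MulAction Γ Y] {A : Set Y} (hAi : ∀ (γ : Γ) (y : Y), γ • y ∈ A ↔ y ∈ A)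
    (γ : Γ) (y : Y) : A.indicator (fun _ => (1 : ℂ)) (γ • y) = A.indicator (fun _ => (1 : ℂ)) y := by
  by_cases h : y ∈ A
  · rw [indicator_of_mem h, indicator_of_mem ((hAi γ y).mpr h)]
  · rw [indicator_of_notMem h, indicator_of_notMem (fun h' => h ((hAi γ y).mp h'))]

theorem OWZ_indn {Y : Type} (A : Set Y) (y : Y) : ‖A.indicator (fun _ => (1 : ℂ)) y‖ ≤ 1 := by
  by_cases h : y ∈ A
  · rw [indicator_of_mem h]
    simp
  · rw [indicator_of_notMem h]
    simp

theorem OWZ_gk {Γ : Type} [Group Γ] {Y : Type} [MeasurableSpace Y] [MulAction Γ Y] {d : Y → Y → ℝ} {A : Set Y}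
    (hA : MeasurableSet A) (hAi : ∀ (γ : Γ) (y : Y), γ • y ∈ A ↔ y ∈ A) {K : Y → Y → ℂ} (hK : KZ Γ d K) :
    KZ Γ d (fun x y => A.indicator (fun _ => (1 : ℂ)) x * K x y) := by
  obtain ⟨B, hB⟩ := hK.bdd
  obtain ⟨D, hD⟩ := hK.range
  refine ⟨?_, ⟨B, fun g h => ?_⟩, fun γ g h => ?_, ⟨D, fun g h hgh => hD g h (right_ne_zero_of_mul hgh)⟩⟩
  · have h1 : Measurable (fun p : Y × Y => A.indicator (fun _ => (1 : ℂ)) p.1) :=
      (measurable_const.indicator hA).comp measurable_fst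
    exact h1.mul hK.meas
  · have hB0 : 0 ≤ B := (norm_nonneg _).trans (hB g h)
    rw [norm_mul]
    calc _ ≤ 1 * B := mul_le_mul (OWZ_indn A g) (hB g h) (norm_nonneg _) (by norm_num)
      _ = B := one_mul B
  · show A.indicator (fun _ => (1 : ℂ)) (γ • g) * K (γ • g) (γ • h) = _
    rw [OWZ_ind hAi, hK.inv]

theorem OWZ_left (Γ : Type) [Group Γ] {Y : Type} [MulAction Γ Y] (A : Set Y) (K : Y → Y → ℂ) (x y : Y) :
    perZ Γ (fun x y => A.indicator (fun _ => (1 : ℂ)) x * K x y) x y = A.indicator (fun _ => (1 : ℂ)) x * perZ Γ K x y := by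
  unfold perZ
  by_cases hg : x ∈ A
  · simp only [indicator_of_mem hg, one_mul]
  · simp only [indicator_of_notMem hg, zero_mul, finsum_zero]

theorem OWZ_right {Γ : Type} [Group Γ] {Y : Type} [MulAction Γ Y] {A : Set Y} (hAi : ∀ (γ : Γ) (y : Y), γ • y ∈ A ↔ y ∈ A)
    (K : Y → Y → ℂ) (x y : Y) :
    perZ Γ (fun x y => K x y * A.indicator (fun _ => (1 : ℂ)) y) x y = perZ Γ K x y * A.indicator (fun _ => (1 : ℂ)) y := by
  unfold perZ
  by_cases hg : y ∈ A
  · simp only [OWZ_ind hAi, indicator_of_mem hg, mul_one]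
  · simp only [OWZ_ind hAi, indicator_of_notMem hg, mul_zero, finsum_zero]

theorem OWZ_proof (hKO1 : RPQ.KO1_stmt) (hKO2 : RPQ.KO2_stmt) (hKPZ : KPZ_stmt) (hKSZ : KSZ_stmt) : OWZ_stmt := by
  intro Γ _ Y _ _ m D d hPS k A hk hA hAi T P hT hP l hl
  obtain ⟨h1, h2⟩ := (hKSZ Γ Y m D d hPS).2 k A hk hA hAi
  obtain ⟨hG1, hG2⟩ := hKPZ Γ Y m D d hPS
  have : IsFiniteMeasure (m.restrict D) := isFiniteMeasure_restrict.mpr hPS.fin.ne
  obtain ⟨c1, -, -, c4, -⟩ := hKO2 Y (m.restrict D)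
  have hAm : Measurable (A.indicator (fun _ => (1 : ℂ))) := measurable_const.indicator hA
  have hAb : ∃ B : ℝ, ∀ y, ‖A.indicator (fun _ => (1 : ℂ)) y‖ ≤ B := ⟨1, OWZ_indn A⟩
  have hm : ∀ K, KZ Γ d K → Measurable (Function.uncurry (perZ Γ K)) := fun K hK => (hG1 K hK).1
  have hb : ∀ K, KZ Γ d K → ∃ B : ℝ, ∀ y z, ‖perZ Γ K y z‖ ≤ B := fun K hK => (hG1 K hK).2.1
  -- composition
  have hcomp : ∀ (K L : Y → Y → ℂ) (S S' : Lp ℂ 2 (m.restrict D) →L[ℂ] Lp ℂ 2 (m.restrict D)),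
      KZ Γ d K → KZ Γ d L → IsOp (m.restrict D) (perZ Γ K) S → IsOp (m.restrict D) (perZ Γ L) S' →
        IsOp (m.restrict D) (perZ Γ (cmZ m K L)) (S * S') := by
    intro K L S S' hK hL hS hS'
    have h3 := c1 _ _ S S' (hm K hK) (hb K hK) (hm L hL) (hb L hL) hS hS'
    have h4 : perZ Γ (cmZ m K L) = fun y z => ∫ x, perZ Γ K y x * perZ Γ L x z ∂(m.restrict D) := by
      funext y z
      exact (hG2 K L hK hL).2 y z
    rw [h4]
    exact h3
  have hpow : ∀ n : ℕ, IsOp (m.restrict D) (perZ Γ (itZ m k n)) (T ^ (n + 1)) := by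
    intro n
    induction n with
    | zero =>
      rw [zero_add, pow_one]
      exact hT
    | succ n ih =>
      rw [pow_succ']
      exact hcomp _ _ _ _ hk (h1 n) hT ih
  have hlK : ∀ n : ℕ, IsOp (m.restrict D)
      (perZ Γ (fun x y => A.indicator (fun _ => (1 : ℂ)) x * itZ m k n x y)) (P * T ^ (n + 1)) := by
    intro n
    have h3 := (c4 _ _ P _ (hm _ (h1 n)) (hb _ (h1 n)) hAm hAb (hpow n) hP).1
    have h4 : perZ Γ (fun x y => A.indicator (fun _ => (1 : ℂ)) x * itZ m k n x y) =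
        fun y z => A.indicator (fun _ => (1 : ℂ)) y * perZ Γ (itZ m k n) y z := by
      funext y z
      exact OWZ_left Γ A _ y z
    rw [h4]
    exact h3
  have hop : ∀ l : List ℕ, l ≠ [] → IsOp (m.restrict D) (perZ Γ (wdZ m k A l)) (wrd T P l) := by
    intro l
    induction l with
    | nil => exact fun h => absurd rfl h
    | cons n l ih =>
      intro _
      cases l with
      | nil =>
        have hgl := OWZ_gk hA hAi (h1 n)
        have h3 := (c4 _ _ P _ (hm _ hgl) (hb _ hgl) hAm hAb (hlK n) hP).2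
        have h4 : perZ Γ (wdZ m k A [n]) = fun y z =>
            perZ Γ (fun x y => A.indicator (fun _ => (1 : ℂ)) x * itZ m k n x y) y z *
              A.indicator (fun _ => (1 : ℂ)) z := by
          funext y z
          exact OWZ_right hAi (fun x y => A.indicator (fun _ => (1 : ℂ)) x * itZ m k n x y) y z
        rw [h4]
        exact h3
      | cons n' l =>
        exact hcomp _ _ _ _ (OWZ_gk hA hAi (h1 n)) (h2 (n' :: l)) (hlK n) (ih (by simp))
  exact (hKO1 _ _ _ (hm _ (h2 l)) (hb _ (h2 l))).2 _ (hop l hl)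

end Pool.Agent.VQ
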