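import Pool.Agent.helper74.VQ.SpecA

/-!
# MP_07c750, project VQ, row VEG (energy localisation for a fixed base point)

The coefficients are the values of the Fourier transform of the compactly supported `C²` function `H = φ~ b0 jd`; multiplication with
`R² (|ξ|² - U(g i) - 2 E0)` is the transform of `X = -ΔH - R² (U(g i) + 2 E0) H` (integration by parts), then Plancherel and a pointwise bound of `X`.
-/

set_option autoImplicit false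

open scoped MatrixGroups ContDiff Topology UpperHalfPlane ComplexConjugate ENNReal
open UpperHalfPlane MeasureTheory Filter Set

namespace Pool.Agent.VQ

open Pool.Agent.RS

noncomputable section

/-- the exponential -/
def VEG_e (R : ℝ) (ξ v : ℂ) : ℂ := Complex.exp (-(((R * (ξ.re * v.re + ξ.im * v.im) : ℝ) : ℂ) * Complex.I))

theorem VEG_e_der (R : ℝ) (ξ v : ℂ) :
    HasFDerivAt (VEG_e R ξ) ((-((R : ℂ) * Complex.I) * VEG_e R ξ v) •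
      ((Complex.ofRealCLM).comp (ξ.re • Complex.reCLM + ξ.im • Complex.imCLM))) v := by
  have h1 : HasFDerivAt (fun v : ℂ => ξ.re * v.re + ξ.im * v.im) (ξ.re • Complex.reCLM + ξ.im • Complex.imCLM) v :=
    ((ξ.re • Complex.reCLM + ξ.im • Complex.imCLM : ℂ →L[ℝ] ℝ)).hasFDerivAt
  have h2 : HasFDerivAt (fun v : ℂ => (((ξ.re * v.re + ξ.im * v.im : ℝ)) : ℂ))
      ((Complex.ofRealCLM).comp (ξ.re • Complex.reCLM + ξ.im • Complex.imCLM)) v :=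
    (Complex.ofRealCLM.hasFDerivAt).comp v h1
  have h3 : HasFDerivAt (fun v : ℂ => -((R : ℂ) * Complex.I) * (((ξ.re * v.re + ξ.im * v.im : ℝ)) : ℂ))
      ((-((R : ℂ) * Complex.I)) • ((Complex.ofRealCLM).comp (ξ.re • Complex.reCLM + ξ.im • Complex.imCLM))) v :=
    h2.const_mul _
  have h4 := h3.cexp
  have h5 : VEG_e R ξ = fun v : ℂ => Complex.exp (-((R : ℂ) * Complex.I) * (((ξ.re * v.re + ξ.im * v.im : ℝ)) : ℂ)) := by
    funext v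
    unfold VEG_e
    congr 1
    push_cast
    ring
  rw [h5]
  refine h4.congr_fderiv ?_
  rw [smul_smul]
  congr 1
  ring

theorem VEG_e_cont (R : ℝ) (ξ : ℂ) : Continuous (VEG_e R ξ) :=
  continuous_iff_continuousAt.2 fun v => (VEG_e_der R ξ v).continuousAt

theorem VEG_ibp (R : ℝ) (ξ e : ℂ) (H : ℂ → ℂ) (hH : ContDiff ℝ 1 H) (hc : HasCompactSupport H) :
    ∫ v, fderiv ℝ H v e * VEG_e R ξ v = Complex.I * (R * (ξ.re * e.re + ξ.im * e.im) : ℝ) * ∫ v, H v * VEG_e R ξ v := by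
  have hcd : Continuous fun v => fderiv ℝ H v e := (hH.continuous_fderiv (by norm_num)).clm_apply continuous_const
  have hE := VEG_e_cont R ξ
  have hfE : ∀ v, fderiv ℝ (VEG_e R ξ) v e = -(Complex.I * (R * (ξ.re * e.re + ξ.im * e.im) : ℝ)) * VEG_e R ξ v := by
    intro v
    rw [(VEG_e_der R ξ v).fderiv]
    simp only [_root_.smul_apply, ContinuousLinearMap.comp_apply, _root_.add_apply,
      Complex.reCLM_apply, Complex.imCLM_apply, Complex.ofRealCLM_apply, smul_eq_mul]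
    push_cast
    ring
  have hHE : Integrable (fun v => H v * VEG_e R ξ v) :=
    (hH.continuous.mul hE).integrable_of_hasCompactSupport (hc.mul_right)
  have h1 : Integrable (fun v => fderiv ℝ H v e * VEG_e R ξ v) :=
    (hcd.mul hE).integrable_of_hasCompactSupport ((hc.fderiv_apply ℝ e).mul_right)
  have h2 : Integrable (fun v => H v * fderiv ℝ (VEG_e R ξ) v e) := by
    have : (fun v => H v * fderiv ℝ (VEG_e R ξ) v e) =
        fun v => -(Complex.I * (R * (ξ.re * e.re + ξ.im * e.im) : ℝ)) * (H v * VEG_e R ξ v) := by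
      funext v
      rw [hfE]
      ring
    rw [this]
    exact hHE.const_mul _
  have h3 := integral_mul_fderiv_eq_neg_fderiv_mul_of_integrable (μ := volume) h1 h2 hHE
    (fun x _ => (hH.differentiable (by norm_num)) x) (fun x _ => (VEG_e_der R ξ x).differentiableAt)
  have h4 : ∫ v, H v * fderiv ℝ (VEG_e R ξ) v e = -(Complex.I * (R * (ξ.re * e.re + ξ.im * e.im) : ℝ)) * ∫ v, H v * VEG_e R ξ v := by
    rw [← integral_const_mul]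
    congr 1
    funext v
    rw [hfE]
    ring
  rw [h4] at h3
  have h5 := congrArg Neg.neg h3
  rw [neg_neg] at h5
  rw [← h5]
  ring

/-- the second derivative -/
theorem VEG_ibp2 (R : ℝ) (ξ e : ℂ) (H : ℂ → ℂ) (hH : ContDiff ℝ 2 H) (hc : HasCompactSupport H) :
    ∫ v, fderiv ℝ (fun w => fderiv ℝ H w e) v e * VEG_e R ξ v =
      -((R * (ξ.re * e.re + ξ.im * e.im) : ℝ) : ℂ) ^ 2 * ∫ v, H v * VEG_e R ξ v := by
  have h1 : ContDiff ℝ 1 (fun w => fderiv ℝ H w e) :=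
    (hH.fderiv_right (m := 1) (by norm_num)).clm_apply contDiff_const
  rw [VEG_ibp R ξ e _ h1 (hc.fderiv_apply ℝ e), VEG_ibp R ξ e H (hH.of_le (by norm_num)) hc]
  linear_combination ((R * (ξ.re * e.re + ξ.im * e.im) : ℝ) : ℂ) ^ 2 * (∫ v, H v * VEG_e R ξ v) * Complex.I_sq

/-- the function `X` -/
def VEG_X (R c : ℝ) (H : ℂ → ℂ) (v : ℂ) : ℂ :=
  -(fderiv ℝ (fun w => fderiv ℝ H w 1) v 1 + fderiv ℝ (fun w => fderiv ℝ H w Complex.I) v Complex.I) - ((R ^ 2 * c : ℝ) : ℂ) * H v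

theorem VEG_X_cont (R c : ℝ) (H : ℂ → ℂ) (hH : ContDiff ℝ 2 H) : Continuous (VEG_X R c H) := by
  have h1 : ∀ e : ℂ, Continuous fun v => fderiv ℝ (fun w => fderiv ℝ H w e) v e := fun e =>
    (((hH.fderiv_right (m := 1) (by norm_num)).clm_apply contDiff_const).continuous_fderiv (by norm_num)).clm_apply continuous_const
  exact ((h1 1).add (h1 Complex.I)).neg.sub (continuous_const.mul hH.continuous)

theorem VEG_X_supp (R c : ℝ) (H : ℂ → ℂ) (hc : HasCompactSupport H) : HasCompactSupport (VEG_X R c H) := by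
  have h1 : ∀ e : ℂ, HasCompactSupport fun v => fderiv ℝ (fun w => fderiv ℝ H w e) v e := fun e =>
    (hc.fderiv_apply ℝ e).fderiv_apply ℝ e
  have h2 := ((h1 1).add (h1 Complex.I)).neg
  exact h2.sub (hc.mul_left)

theorem VEG_X_ft (R c : ℝ) (ξ : ℂ) (H : ℂ → ℂ) (hH : ContDiff ℝ 2 H) (hc : HasCompactSupport H) :
    Ft R (VEG_X R c H) ξ = ((R ^ 2 * (‖ξ‖ ^ 2 - c) : ℝ) : ℂ) * Ft R H ξ := by
  have hE := VEG_e_cont R ξ
  have h1 : ∀ e : ℂ, Integrable fun v => fderiv ℝ (fun w => fderiv ℝ H w e) v e * VEG_e R ξ v := fun e =>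
    ((((hH.fderiv_right (m := 1) (by norm_num)).clm_apply contDiff_const).continuous_fderiv (by norm_num)).clm_apply
      continuous_const |>.mul hE).integrable_of_hasCompactSupport ((hc.fderiv_apply ℝ e).fderiv_apply ℝ e).mul_right
  have h2 : Integrable (fun v => H v * VEG_e R ξ v) :=
    (hH.continuous.mul hE).integrable_of_hasCompactSupport (hc.mul_right)
  have h3 : Ft R (VEG_X R c H) ξ = -((∫ v, fderiv ℝ (fun w => fderiv ℝ H w 1) v 1 * VEG_e R ξ v) +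
      ∫ v, fderiv ℝ (fun w => fderiv ℝ H w Complex.I) v Complex.I * VEG_e R ξ v) - ((R ^ 2 * c : ℝ) : ℂ) * ∫ v, H v * VEG_e R ξ v := by
    have h5 : Ft R (VEG_X R c H) ξ = ∫ v, (-(fderiv ℝ (fun w => fderiv ℝ H w 1) v 1 * VEG_e R ξ v +
        fderiv ℝ (fun w => fderiv ℝ H w Complex.I) v Complex.I * VEG_e R ξ v) - ((R ^ 2 * c : ℝ) : ℂ) * (H v * VEG_e R ξ v)) := by
      unfold Ft
      congr 1
      funext v
      show VEG_X R c H v * VEG_e R ξ v = _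
      unfold VEG_X
      ring
    rw [h5, integral_sub (f := fun v => -(fderiv ℝ (fun w => fderiv ℝ H w 1) v 1 * VEG_e R ξ v +
        fderiv ℝ (fun w => fderiv ℝ H w Complex.I) v Complex.I * VEG_e R ξ v)) ((h1 1).add (h1 Complex.I)).neg (h2.const_mul _),
      integral_neg, integral_add (h1 1) (h1 Complex.I), integral_const_mul]
  have h4 : Ft R H ξ = ∫ v, H v * VEG_e R ξ v := rfl
  rw [h3, VEG_ibp2 R ξ 1 H hH hc, VEG_ibp2 R ξ Complex.I H hH hc, h4, Complex.sq_norm, Complex.normSq_apply]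
  simp only [Complex.one_re, Complex.one_im, Complex.I_re, Complex.I_im, mul_one, mul_zero, add_zero, zero_add]
  push_cast
  ring

/-! ## the profile -/

/-- the profile as a function of `q = |v|²` -/
def VEG_G (ch : ℝ → ℝ) (R κ q : ℝ) : ℝ := Real.exp (-(R * q / 2)) * ch (κ * q) * ((1 - q / 4) ^ 2)⁻¹

def VEG_G1 (ch : ℝ → ℝ) (R κ q : ℝ) : ℝ :=
  -(R / 2) * Real.exp (-(R * q / 2)) * ch (κ * q) * ((1 - q / 4) ^ 2)⁻¹ +
    Real.exp (-(R * q / 2)) * (κ * deriv ch (κ * q)) * ((1 - q / 4) ^ 2)⁻¹ +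
    Real.exp (-(R * q / 2)) * ch (κ * q) * (1 / 2 * ((1 - q / 4) ^ 3)⁻¹)

def VEG_G2 (ch : ℝ → ℝ) (R κ q : ℝ) : ℝ :=
  R ^ 2 / 4 * Real.exp (-(R * q / 2)) * ch (κ * q) * ((1 - q / 4) ^ 2)⁻¹ +
    Real.exp (-(R * q / 2)) * (κ ^ 2 * deriv (deriv ch) (κ * q)) * ((1 - q / 4) ^ 2)⁻¹ +
    Real.exp (-(R * q / 2)) * ch (κ * q) * (3 / 8 * ((1 - q / 4) ^ 4)⁻¹) +
    2 * (-(R / 2) * Real.exp (-(R * q / 2)) * (κ * deriv ch (κ * q)) * ((1 - q / 4) ^ 2)⁻¹) +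
    2 * (-(R / 2) * Real.exp (-(R * q / 2)) * ch (κ * q) * (1 / 2 * ((1 - q / 4) ^ 3)⁻¹)) +
    2 * (Real.exp (-(R * q / 2)) * (κ * deriv ch (κ * q)) * (1 / 2 * ((1 - q / 4) ^ 3)⁻¹))

theorem VEG_inv_der (n : ℕ) (q : ℝ) (hq : q < 4) :
    HasDerivAt (fun q : ℝ => ((1 - q / 4) ^ (n + 1))⁻¹) ((n + 1) / 4 * ((1 - q / 4) ^ (n + 2))⁻¹) q := by
  have h0 : (1 : ℝ) - q / 4 ≠ 0 := by
    intro h
    linarith
  have h1 : HasDerivAt (fun q : ℝ => 1 - q / 4) (-(1 / 4)) q := by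
    have := ((hasDerivAt_id q).div_const 4).const_sub 1
    exact this
  have h2 := (h1.pow (n + 1)).inv (pow_ne_zero _ h0)
  refine h2.congr_deriv ?_
  rw [Nat.add_sub_cancel, Pi.pow_apply]
  have h3 : ((1 - q / 4) ^ (n + 1)) ^ 2 = (1 - q / 4) ^ n * (1 - q / 4) ^ (n + 2) := by
    rw [← pow_mul, ← pow_add]
    congr 1
    ring
  rw [h3]
  have h4 : (1 - q / 4) ^ n ≠ 0 := pow_ne_zero _ h0
  have h5 : (1 - q / 4) ^ (n + 2) ≠ 0 := pow_ne_zero _ h0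
  push_cast
  generalize (1 - q / 4) ^ n = x at h4 ⊢
  generalize (1 - q / 4) ^ (n + 2) = y at h5 ⊢
  field_simp

theorem VEG_exp_der (R q : ℝ) : HasDerivAt (fun q : ℝ => Real.exp (-(R * q / 2))) (-(R / 2) * Real.exp (-(R * q / 2))) q := by
  have h1 : HasDerivAt (fun q : ℝ => -(R * q / 2)) (-(R / 2)) q := by
    have := (((hasDerivAt_id q).const_mul R).div_const 2).neg
    refine this.congr_deriv ?_
    ring
  refine h1.exp.congr_deriv ?_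
  ring

theorem VEG_G_der (ch : ℝ → ℝ) (hs : ContDiff ℝ ∞ ch) (R κ q : ℝ) (hq : q < 4) :
    HasDerivAt (VEG_G ch R κ) (VEG_G1 ch R κ q) q ∧ HasDerivAt (VEG_G1 ch R κ) (VEG_G2 ch R κ q) q := by
  have hl : HasDerivAt (fun q : ℝ => κ * q) κ q := by
    have := (hasDerivAt_id q).const_mul κ
    rwa [mul_one] at this
  have hc1 : HasDerivAt (fun q : ℝ => ch (κ * q)) (κ * deriv ch (κ * q)) q := by
    have h1 : HasDerivAt ch (deriv ch (κ * q)) (κ * q) := (hs.differentiable (by simp) _).hasDerivAt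
    refine (h1.comp q hl).congr_deriv ?_
    ring
  have hs2 : ContDiff ℝ ∞ (deriv ch) := hs.deriv'
  have hc2 : HasDerivAt (fun q : ℝ => κ * deriv ch (κ * q)) (κ ^ 2 * deriv (deriv ch) (κ * q)) q := by
    have h1 : HasDerivAt (deriv ch) (deriv (deriv ch) (κ * q)) (κ * q) := (hs2.differentiable (by simp) _).hasDerivAt
    refine ((h1.comp q hl).const_mul κ).congr_deriv ?_
    ring
  have he := VEG_exp_der R q
  have hj := VEG_inv_der 1 q hq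
  have hj2 := VEG_inv_der 2 q hq
  norm_num at hj hj2
  constructor
  · refine ((he.mul hc1).mul hj).congr_deriv ?_
    unfold VEG_G1
    simp only [Pi.mul_apply]
    ring
  · have hj3 : HasDerivAt (fun q : ℝ => 1 / 2 * ((1 - q / 4) ^ 3)⁻¹) (3 / 8 * ((1 - q / 4) ^ 4)⁻¹) q := by
      refine (hj2.const_mul (1 / 2)).congr_deriv ?_
      ring
    have h1 := (((he.const_mul (-(R / 2))).mul hc1).mul hj)
    have h2 := ((he.mul hc2).mul hj)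
    have h3 := ((he.mul hc1).mul hj3)
    refine ((h1.add h2).add h3).congr_deriv ?_
    unfold VEG_G2
    simp only [Pi.mul_apply]
    ring

/-- bounds for the profile -/
theorem VEG_G_bd (ch : ℝ → ℝ) (hs : ContDiff ℝ ∞ ch) (hb : ∀ s, 0 ≤ ch s ∧ ch s ≤ 1) :
    ∃ C : ℝ, 1 ≤ C ∧ ∀ R κ q : ℝ, 1 ≤ R → 0 ≤ κ → κ ≤ R → 0 ≤ q → q ≤ 1 / 16 → κ * q ≤ 1 →
      |VEG_G1 ch R κ q| ≤ C * R ∧ |VEG_G2 ch R κ q| ≤ C * R ^ 2 := by
  have hs1 : ContDiff ℝ ∞ (deriv ch) := hs.deriv'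
  have hs2 : ContDiff ℝ ∞ (deriv (deriv ch)) := hs1.deriv'
  obtain ⟨C1, hC1⟩ := isCompact_Icc.exists_bound_of_continuousOn (s := Icc (0 : ℝ) 1) hs1.continuous.continuousOn
  obtain ⟨C2, hC2⟩ := isCompact_Icc.exists_bound_of_continuousOn (s := Icc (0 : ℝ) 1) hs2.continuous.continuousOn
  have h10 : 0 ≤ C1 := (norm_nonneg _).trans (hC1 0 (by simp))
  have h20 : 0 ≤ C2 := (norm_nonneg _).trans (hC2 0 (by simp))
  refine ⟨5 + 2 * C2 + 6 * C1, by linarith, fun R κ q hR hκ hκR hq hq1 hκq => ?_⟩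
  have hR0 : 0 ≤ R := by linarith
  obtain ⟨he0, he1⟩ : 0 ≤ Real.exp (-(R * q / 2)) ∧ Real.exp (-(R * q / 2)) ≤ 1 :=
    ⟨(Real.exp_pos _).le, Real.exp_le_one_iff.2 (by nlinarith)⟩
  obtain ⟨hc0, hc1⟩ := hb (κ * q)
  have hmem : κ * q ∈ Icc (0 : ℝ) 1 := ⟨by positivity, hκq⟩
  have hd1 := hC1 _ hmem
  have hd2 := hC2 _ hmem
  rw [Real.norm_eq_abs] at hd1 hd2
  have hb0 : 63 / 64 ≤ 1 - q / 4 := by linarith
  have hb1 : 1 - q / 4 ≤ 1 := by linarith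
  have hj : ∀ n : ℕ, n ≤ 4 → 0 ≤ ((1 - q / 4) ^ n)⁻¹ ∧ ((1 - q / 4) ^ n)⁻¹ ≤ 2 := by
    intro n hn
    have h1 : (63 / 64 : ℝ) ^ 4 ≤ (1 - q / 4) ^ n := by
      calc (63 / 64 : ℝ) ^ 4 ≤ (1 - q / 4) ^ 4 := pow_le_pow_left₀ (by norm_num) hb0 4
        _ ≤ (1 - q / 4) ^ n := pow_le_pow_of_le_one (by linarith) hb1 hn
    have h2 : (1 / 2 : ℝ) ≤ (1 - q / 4) ^ n := by
      refine le_trans ?_ h1
      norm_num
    refine ⟨inv_nonneg.2 (by linarith), ?_⟩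
    have := inv_anti₀ (by norm_num : (0 : ℝ) < 1 / 2) h2
    linarith [this, (by norm_num : ((1 / 2 : ℝ))⁻¹ = 2)]
  obtain ⟨j20, j21⟩ := hj 2 (by norm_num)
  obtain ⟨j30, j31⟩ := hj 3 (by norm_num)
  obtain ⟨j40, j41⟩ := hj 4 (by norm_num)
  unfold VEG_G1 VEG_G2
  generalize Real.exp (-(R * q / 2)) = e at *
  generalize ch (κ * q) = k at *
  generalize deriv ch (κ * q) = k1 at *
  generalize deriv (deriv ch) (κ * q) = k2 at *
  generalize ((1 - q / 4) ^ 2)⁻¹ = j2 at *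
  generalize ((1 - q / 4) ^ 3)⁻¹ = j3 at *
  generalize ((1 - q / 4) ^ 4)⁻¹ = j4 at *
  have hek : |e * k| ≤ 1 := by
    rw [abs_of_nonneg (mul_nonneg he0 hc0)]
    exact mul_le_one₀ he1 hc0 hc1
  have hekj : ∀ j, 0 ≤ j → j ≤ 2 → |e * k * j| ≤ 2 := by
    intro j hj0 hj1
    rw [abs_mul, abs_of_nonneg hj0]
    calc |e * k| * j ≤ 1 * 2 := mul_le_mul hek hj1 hj0 (by norm_num)
      _ = 2 := by norm_num
  have hej : ∀ j, 0 ≤ j → j ≤ 2 → |e * j| ≤ 2 := by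
    intro j hj0 hj1
    rw [abs_mul, abs_of_nonneg hj0, abs_of_nonneg he0]
    calc e * j ≤ 1 * 2 := mul_le_mul he1 hj1 hj0 (by norm_num)
      _ = 2 := by norm_num
  have hk1 : |κ * k1| ≤ R * C1 := by
    rw [abs_mul, abs_of_nonneg hκ]
    exact mul_le_mul hκR hd1 (abs_nonneg _) hR0
  have hk2 : |κ ^ 2 * k2| ≤ R ^ 2 * C2 := by
    rw [abs_mul, abs_of_nonneg (by positivity)]
    exact mul_le_mul (pow_le_pow_left₀ hκ hκR 2) hd2 (abs_nonneg _) (by positivity)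
  have hmul : ∀ a b A B : ℝ, |a| ≤ A → |b| ≤ B → |a * b| ≤ A * B := by
    intro a b A B ha hb'
    rw [abs_mul]
    exact mul_le_mul ha hb' (abs_nonneg _) ((abs_nonneg _).trans ha)
  have hRR : R ≤ R ^ 2 := by nlinarith
  have hR1 : 1 ≤ R ^ 2 := by nlinarith
  constructor
  · have t1 : |-(R / 2) * e * k * j2| ≤ R / 2 * 2 := by
      have : -(R / 2) * e * k * j2 = -(R / 2) * (e * k * j2) := by ring
      rw [this]
      exact hmul _ _ _ _ (by rw [abs_neg, abs_of_nonneg (by positivity)]) (hekj j2 j20 j21)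
    have t2 : |e * (κ * k1) * j2| ≤ R * C1 * 2 := by
      have : e * (κ * k1) * j2 = (κ * k1) * (e * j2) := by ring
      rw [this]
      exact hmul _ _ _ _ hk1 (hej j2 j20 j21)
    have t3 : |e * k * (1 / 2 * j3)| ≤ 2 := hekj _ (by positivity) (by linarith)
    calc |-(R / 2) * e * k * j2 + e * (κ * k1) * j2 + e * k * (1 / 2 * j3)|
        ≤ |-(R / 2) * e * k * j2| + |e * (κ * k1) * j2| + |e * k * (1 / 2 * j3)| := abs_add_three _ _ _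
      _ ≤ R / 2 * 2 + R * C1 * 2 + 2 := by linarith
      _ ≤ (5 + 2 * C2 + 6 * C1) * R := by nlinarith [mul_nonneg h20 hR0, mul_nonneg h10 hR0]
  · have t1 : |R ^ 2 / 4 * e * k * j2| ≤ R ^ 2 / 4 * 2 := by
      have : R ^ 2 / 4 * e * k * j2 = R ^ 2 / 4 * (e * k * j2) := by ring
      rw [this]
      exact hmul _ _ _ _ (by rw [abs_of_nonneg (by positivity)]) (hekj j2 j20 j21)
    have t2 : |e * (κ ^ 2 * k2) * j2| ≤ R ^ 2 * C2 * 2 := by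
      have : e * (κ ^ 2 * k2) * j2 = (κ ^ 2 * k2) * (e * j2) := by ring
      rw [this]
      exact hmul _ _ _ _ hk2 (hej j2 j20 j21)
    have t3 : |e * k * (3 / 8 * j4)| ≤ 2 := hekj _ (by positivity) (by linarith)
    have t4 : |2 * (-(R / 2) * e * (κ * k1) * j2)| ≤ R * (R * C1 * 2) := by
      have : 2 * (-(R / 2) * e * (κ * k1) * j2) = (-R) * ((κ * k1) * (e * j2)) := by ring
      rw [this]
      exact hmul _ _ _ _ (by rw [abs_neg, abs_of_nonneg hR0]) (hmul _ _ _ _ hk1 (hej j2 j20 j21))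
    have t5 : |2 * (-(R / 2) * e * k * (1 / 2 * j3))| ≤ R * 2 := by
      have : 2 * (-(R / 2) * e * k * (1 / 2 * j3)) = (-R) * (e * k * (1 / 2 * j3)) := by ring
      rw [this]
      exact hmul _ _ _ _ (by rw [abs_neg, abs_of_nonneg hR0]) (hekj _ (by positivity) (by linarith))
    have t6 : |2 * (e * (κ * k1) * (1 / 2 * j3))| ≤ R * C1 * 2 := by
      have : 2 * (e * (κ * k1) * (1 / 2 * j3)) = (κ * k1) * (e * j3) := by ring
      rw [this]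
      exact hmul _ _ _ _ hk1 (hej j3 j30 j31)
    generalize R ^ 2 / 4 * e * k * j2 = x1 at *
    generalize e * (κ ^ 2 * k2) * j2 = x2 at *
    generalize e * k * (3 / 8 * j4) = x3 at *
    generalize 2 * (-(R / 2) * e * (κ * k1) * j2) = x4 at *
    generalize 2 * (-(R / 2) * e * k * (1 / 2 * j3)) = x5 at *
    generalize 2 * (e * (κ * k1) * (1 / 2 * j3)) = x6 at *
    have hsum : |x1 + x2 + x3 + x4 + x5 + x6| ≤ |x1| + |x2| + |x3| + |x4| + |x5| + |x6| := by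
      calc |x1 + x2 + x3 + x4 + x5 + x6| ≤ |x1 + x2 + x3 + x4 + x5| + |x6| := abs_add_le _ _
        _ ≤ |x1 + x2 + x3 + x4| + |x5| + |x6| := by gcongr; exact abs_add_le _ _
        _ ≤ |x1 + x2 + x3| + |x4| + |x5| + |x6| := by gcongr; exact abs_add_le _ _
        _ ≤ _ := by gcongr; exact abs_add_three _ _ _
    have h3 : R * C1 ≤ R ^ 2 * C1 := mul_le_mul_of_nonneg_right hRR h10
    nlinarith [mul_nonneg h20 hR0, mul_nonneg h10 hR0]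

/-- the norm squared -/
theorem VEG_nsq (v : ℂ) : HasFDerivAt (fun v : ℂ => ‖v‖ ^ 2) (2 • innerSL ℝ v) v := (hasStrictFDerivAt_norm_sq v).hasFDerivAt

/-- the profile on the disc -/
def VEG_B (ch : ℝ → ℝ) (R κ : ℝ) (v : ℂ) : ℂ := (VEG_G ch R κ (‖v‖ ^ 2) : ℂ)

theorem VEG_B_der (ch : ℝ → ℝ) (hs : ContDiff ℝ ∞ ch) (R κ : ℝ) (v : ℂ) (hv : ‖v‖ < 2) :
    HasFDerivAt (VEG_B ch R κ) (Complex.ofRealCLM.comp (VEG_G1 ch R κ (‖v‖ ^ 2) • (2 • innerSL ℝ v))) v := by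
  have hq : ‖v‖ ^ 2 < 4 := by nlinarith [norm_nonneg v]
  have h1 := (VEG_G_der ch hs R κ _ hq).1
  have h2 := h1.comp_hasFDerivAt v (VEG_nsq v)
  exact Complex.ofRealCLM.hasFDerivAt.comp v h2

theorem VEG_B_app (ch : ℝ → ℝ) (hs : ContDiff ℝ ∞ ch) (R κ : ℝ) (v : ℂ) (hv : ‖v‖ < 2) (e : ℂ) :
    fderiv ℝ (VEG_B ch R κ) v e = ((VEG_G1 ch R κ (‖v‖ ^ 2) * (2 * inner ℝ v e) : ℝ) : ℂ) := by
  rw [(VEG_B_der ch hs R κ v hv).fderiv]
  simp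
  ring

theorem VEG_B_app2 (ch : ℝ → ℝ) (hs : ContDiff ℝ ∞ ch) (R κ : ℝ) (v : ℂ) (hv : ‖v‖ < 2) (e : ℂ) :
    fderiv ℝ (fun w => fderiv ℝ (VEG_B ch R κ) w e) v e =
      ((VEG_G2 ch R κ (‖v‖ ^ 2) * (2 * inner ℝ v e) ^ 2 + VEG_G1 ch R κ (‖v‖ ^ 2) * (2 * inner ℝ e e) : ℝ) : ℂ) := by
  have hev : (fun w => fderiv ℝ (VEG_B ch R κ) w e) =ᶠ[𝓝 v] fun w => ((VEG_G1 ch R κ (‖w‖ ^ 2) * (2 * inner ℝ w e) : ℝ) : ℂ) := by
    filter_upwards [(isOpen_lt continuous_norm continuous_const).mem_nhds hv] with w hw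
    exact VEG_B_app ch hs R κ w hw e
  rw [hev.fderiv_eq]
  have hq : ‖v‖ ^ 2 < 4 := by nlinarith [norm_nonneg v]
  have h1 := (VEG_G_der ch hs R κ _ hq).2.comp_hasFDerivAt v (VEG_nsq v)
  have h2 : HasFDerivAt (fun w : ℂ => 2 * inner ℝ w e) ((2 : ℝ) • (innerSL ℝ e)) v := by
    have h3 : HasFDerivAt (fun w : ℂ => innerSL ℝ e w) (innerSL ℝ e) v := (innerSL ℝ e).hasFDerivAt
    have h4 := h3.const_mul 2
    refine h4.congr_of_eventuallyEq (Eventually.of_forall fun w => ?_)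
    simp only [innerSL_apply_apply]
    rw [real_inner_comm]
  have h3 := Complex.ofRealCLM.hasFDerivAt.comp v (h1.mul h2)
  have h4 : (fun w : ℂ => ((VEG_G1 ch R κ (‖w‖ ^ 2) * (2 * inner ℝ w e) : ℝ) : ℂ)) =
      (⇑Complex.ofRealCLM ∘ ((VEG_G1 ch R κ ∘ fun v : ℂ => ‖v‖ ^ 2) * fun w : ℂ => 2 * inner ℝ w e)) := rfl
  rw [h4, h3.fderiv]
  simp
  ring

theorem VEG_B_cd (ch : ℝ → ℝ) (hs : ContDiff ℝ ∞ ch) (R κ : ℝ) (v : ℂ) (hv : ‖v‖ < 2) : ContDiffAt ℝ 2 (VEG_B ch R κ) v := by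
  have hq : (1 - ‖v‖ ^ 2 / 4) ^ 2 ≠ 0 := by
    have : ‖v‖ ^ 2 < 4 := by nlinarith [norm_nonneg v]
    have h0 : (1 : ℝ) - ‖v‖ ^ 2 / 4 ≠ 0 := by
      intro h
      linarith
    exact pow_ne_zero _ h0
  have hn : ContDiff ℝ 2 (fun v : ℂ => ‖v‖ ^ 2) := contDiff_norm_sq ℝ
  have h1 : ContDiff ℝ 2 (fun v : ℂ => Real.exp (-(R * ‖v‖ ^ 2 / 2))) :=
    Real.contDiff_exp.comp ((contDiff_const.mul hn).div_const 2).neg
  have h2 : ContDiff ℝ 2 (fun v : ℂ => ch (κ * ‖v‖ ^ 2)) :=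
    (hs.of_le (by norm_cast)).comp (contDiff_const.mul hn)
  have h3 : ContDiffAt ℝ 2 (fun v : ℂ => ((1 - ‖v‖ ^ 2 / 4) ^ 2)⁻¹) v :=
    (((contDiff_const.sub (hn.div_const 4)).pow 2).contDiffAt).inv hq
  have h4 := (h1.contDiffAt.mul h2.contDiffAt).mul h3
  exact Complex.ofRealCLM.contDiff.contDiffAt.comp v h4

/-- the second derivative of a function in a fixed direction -/
theorem VEG_dd (p : ℂ → ℂ) (v e : ℂ) (hp : ContDiffAt ℝ 2 p v) :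
    fderiv ℝ (fun w => fderiv ℝ p w e) v e = fderiv ℝ (fderiv ℝ p) v e e ∧ DifferentiableAt ℝ (fun w => fderiv ℝ p w e) v := by
  have h1 : DifferentiableAt ℝ (fderiv ℝ p) v :=
    (hp.fderiv_right (m := 1) (by norm_num)).differentiableAt (by norm_num)
  have h2 : HasFDerivAt (fun w => fderiv ℝ p w e) ((ContinuousLinearMap.apply ℝ ℂ e).comp (fderiv ℝ (fderiv ℝ p) v)) v :=
    (ContinuousLinearMap.apply ℝ ℂ e).hasFDerivAt.comp v h1.hasFDerivAt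
  refine ⟨?_, h2.differentiableAt⟩
  rw [h2.fderiv]
  rfl

theorem VEG_prod (p B : ℂ → ℂ) (v e : ℂ) (hp : ContDiffAt ℝ 2 p v) (hB : ContDiffAt ℝ 2 B v) :
    fderiv ℝ (fun w => fderiv ℝ (fun x => p x * B x) w e) v e =
      fderiv ℝ (fun w => fderiv ℝ p w e) v e * B v + 2 * (fderiv ℝ p v e * fderiv ℝ B v e) +
        p v * fderiv ℝ (fun w => fderiv ℝ B w e) v e := by
  have hev : (fun w => fderiv ℝ (fun x => p x * B x) w e) =ᶠ[𝓝 v] fun w => p w * fderiv ℝ B w e + B w * fderiv ℝ p w e := by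
    filter_upwards [hp.eventually (by simp), hB.eventually (by simp)] with w hw1 hw2
    rw [fderiv_fun_mul (hw1.differentiableAt (by norm_num)) (hw2.differentiableAt (by norm_num))]
    rfl
  rw [hev.fderiv_eq]
  have hpd := hp.differentiableAt (by norm_num)
  have hBd := hB.differentiableAt (by norm_num)
  rw [fderiv_fun_add (f := fun w => p w * fderiv ℝ B w e) (g := fun w => B w * fderiv ℝ p w e)
    (hpd.mul (VEG_dd B v e hB).2) (hBd.mul (VEG_dd p v e hp).2), fderiv_fun_mul hpd (VEG_dd B v e hB).2,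
    fderiv_fun_mul hBd (VEG_dd p v e hp).2]
  simp only [_root_.add_apply, _root_.smul_apply, smul_eq_mul]
  ring

/-- the cut-off function -/
def VEG_H (ch : ℝ → ℝ) (R κ : ℝ) (p : ℂ → ℂ) (v : ℂ) : ℂ := if ‖v‖ < 2 then p v * VEG_B ch R κ v else 0

theorem VEG_H_in (ch : ℝ → ℝ) (R κ : ℝ) (p : ℂ → ℂ) (v : ℂ) (hv : ‖v‖ < 2) :
    VEG_H ch R κ p =ᶠ[𝓝 v] fun x => p x * VEG_B ch R κ x := by
  filter_upwards [(isOpen_lt continuous_norm continuous_const).mem_nhds hv] with w hw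
  exact if_pos hw

theorem VEG_H_out (ch : ℝ → ℝ) (hz : ∀ s, 1 ≤ s → ch s = 0) (R κ s : ℝ) (hκ : 0 < κ) (h0 : 0 ≤ s) (hs : 1 ≤ κ * s ^ 2) (p : ℂ → ℂ) (v : ℂ)
    (hv : s < ‖v‖) : VEG_H ch R κ p =ᶠ[𝓝 v] fun _ => 0 := by
  filter_upwards [(isOpen_lt continuous_const continuous_norm).mem_nhds hv] with w hw
  unfold VEG_H
  split_ifs with h
  · have h1 : s ^ 2 ≤ ‖w‖ ^ 2 := pow_le_pow_left₀ h0 (le_of_lt hw) 2
    have h2 : 1 ≤ κ * ‖w‖ ^ 2 := hs.trans (mul_le_mul_of_nonneg_left h1 hκ.le)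
    unfold VEG_B VEG_G
    rw [hz _ h2]
    simp
  · rfl

theorem VEG_H_cd (ch : ℝ → ℝ) (hs : ContDiff ℝ ∞ ch) (hz : ∀ s, 1 ≤ s → ch s = 0) (R κ s : ℝ) (hκ : 0 < κ) (h0 : 0 ≤ s)
    (hs1 : 1 ≤ κ * s ^ 2) (hs2 : s < 2) (p : ℂ → ℂ) (hp : ∀ v, ‖v‖ < 2 → ContDiffAt ℝ 2 p v) :
    ContDiff ℝ 2 (VEG_H ch R κ p) ∧ HasCompactSupport (VEG_H ch R κ p) := by
  constructor
  · rw [contDiff_iff_contDiffAt]
    intro v
    by_cases hv : ‖v‖ < 2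
    · exact ((hp v hv).mul (VEG_B_cd ch hs R κ v hv)).congr_of_eventuallyEq (VEG_H_in ch R κ p v hv)
    · exact contDiffAt_const.congr_of_eventuallyEq (VEG_H_out ch hz R κ s hκ h0 hs1 p v (by linarith))
  · refine HasCompactSupport.intro (isCompact_closedBall (0 : ℂ) s) fun v hv => ?_
    rw [Metric.mem_closedBall, dist_zero_right, not_le] at hv
    exact (VEG_H_out ch hz R κ s hκ h0 hs1 p v hv).eq_of_nhds

theorem VEG_X_out (ch : ℝ → ℝ) (hz : ∀ s, 1 ≤ s → ch s = 0) (R κ s c : ℝ) (hκ : 0 < κ) (h0 : 0 ≤ s) (hs : 1 ≤ κ * s ^ 2) (p : ℂ → ℂ) (v : ℂ)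
    (hv : s < ‖v‖) : VEG_X R c (VEG_H ch R κ p) v = 0 := by
  have h1 := VEG_H_out ch hz R κ s hκ h0 hs p v hv
  have h2 : ∀ e : ℂ, fderiv ℝ (fun w => fderiv ℝ (VEG_H ch R κ p) w e) v e = 0 := by
    intro e
    have h3 : (fun w => fderiv ℝ (VEG_H ch R κ p) w e) =ᶠ[𝓝 v] fun _ => 0 := by
      filter_upwards [h1.fderiv (𝕜 := ℝ)] with w hw
      rw [hw]
      simp
    rw [h3.fderiv_eq]
    simp
  unfold VEG_X
  rw [h2, h2, h1.eq_of_nhds]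
  simp

theorem VEG_X_in (ch : ℝ → ℝ) (hs : ContDiff ℝ ∞ ch) (R κ c : ℝ) (p : ℂ → ℂ) (v : ℂ) (hv : ‖v‖ < 2) (hp : ∀ v, ‖v‖ < 2 → ContDiffAt ℝ 2 p v) :
    VEG_X R c (VEG_H ch R κ p) v =
      -(fderiv ℝ (fderiv ℝ p) v 1 1 + fderiv ℝ (fderiv ℝ p) v Complex.I Complex.I) * VEG_B ch R κ v -
      2 * (fderiv ℝ p v 1 * fderiv ℝ (VEG_B ch R κ) v 1 + fderiv ℝ p v Complex.I * fderiv ℝ (VEG_B ch R κ) v Complex.I) -
      p v * (fderiv ℝ (fun w => fderiv ℝ (VEG_B ch R κ) w 1) v 1 + fderiv ℝ (fun w => fderiv ℝ (VEG_B ch R κ) w Complex.I) v Complex.I) -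
      ((R ^ 2 * c : ℝ) : ℂ) * (p v * VEG_B ch R κ v) := by
  have h1 := VEG_H_in ch R κ p v hv
  have h2 : ∀ e : ℂ, fderiv ℝ (fun w => fderiv ℝ (VEG_H ch R κ p) w e) v e =
      fderiv ℝ (fderiv ℝ p) v e e * VEG_B ch R κ v + 2 * (fderiv ℝ p v e * fderiv ℝ (VEG_B ch R κ) v e) +
        p v * fderiv ℝ (fun w => fderiv ℝ (VEG_B ch R κ) w e) v e := by
    intro e
    have h3 : (fun w => fderiv ℝ (VEG_H ch R κ p) w e) =ᶠ[𝓝 v] fun w => fderiv ℝ (fun x => p x * VEG_B ch R κ x) w e := by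
      filter_upwards [h1.fderiv (𝕜 := ℝ)] with w hw
      rw [hw]
    rw [h3.fderiv_eq, VEG_prod p _ v e (hp v hv) (VEG_B_cd ch hs R κ v hv), (VEG_dd p v e (hp v hv)).1]
  unfold VEG_X
  rw [h2, h2, h1.eq_of_nhds]
  ring

theorem VEG_cs5 (x1 x2 x3 x4 x5 : ℝ) : (x1 + x2 + x3 + x4 + x5) ^ 2 ≤ 5 * (x1 ^ 2 + x2 ^ 2 + x3 ^ 2 + x4 ^ 2 + x5 ^ 2) := by
  nlinarith [sq_nonneg (x1 - x2), sq_nonneg (x1 - x3), sq_nonneg (x1 - x4), sq_nonneg (x1 - x5), sq_nonneg (x2 - x3),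
    sq_nonneg (x2 - x4), sq_nonneg (x2 - x5), sq_nonneg (x3 - x4), sq_nonneg (x3 - x5), sq_nonneg (x4 - x5)]

/-- the numbers -/
theorem VEG_num (L C R s a b c1 c2 x : ℝ) (hs0 : 0 ≤ s) (hs1 : s ≤ 1) (hx0 : 0 ≤ x)
    (hx : x ≤ 4 * a + 2 * (2 * L + 3) * (R ^ 2 * s) * b + 4 * C * (R * s) * c1 + 4 * C * (R * s) * c2 + 12 * C * (R ^ 2 * s ^ 2) * b) :
    x ^ 2 ≤ (5 * (16 + 4 * (2 * L + 3) ^ 2 + 160 * C ^ 2)) *
      (a ^ 2 + R ^ 4 * s ^ 2 * b ^ 2 + R ^ 2 * s ^ 2 * (c1 ^ 2 + c2 ^ 2)) := by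
  have h1 := VEG_cs5 (4 * a) (2 * (2 * L + 3) * (R ^ 2 * s) * b) (4 * C * (R * s) * c1) (4 * C * (R * s) * c2) (12 * C * (R ^ 2 * s ^ 2) * b)
  have h2 := pow_le_pow_left₀ hx0 hx 2
  refine (h2.trans h1).trans ?_
  have h3 : (12 * C * (R ^ 2 * s ^ 2) * b) ^ 2 ≤ 144 * C ^ 2 * (R ^ 4 * s ^ 2 * b ^ 2) := by
    have h4 : (12 * C * (R ^ 2 * s ^ 2) * b) ^ 2 = 144 * C ^ 2 * (R ^ 4 * s ^ 2 * b ^ 2) * s ^ 2 := by ring
    rw [h4]
    have h5 : s ^ 2 ≤ 1 := pow_le_one₀ hs0 hs1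
    exact mul_le_of_le_one_right (by positivity) h5
  have e1 : (4 * a) ^ 2 = 16 * a ^ 2 := by ring
  have e2 : (2 * (2 * L + 3) * (R ^ 2 * s) * b) ^ 2 = 4 * (2 * L + 3) ^ 2 * (R ^ 4 * s ^ 2 * b ^ 2) := by ring
  have e3 : (4 * C * (R * s) * c1) ^ 2 = 16 * C ^ 2 * (R ^ 2 * s ^ 2 * c1 ^ 2) := by ring
  have e4 : (4 * C * (R * s) * c2) ^ 2 = 16 * C ^ 2 * (R ^ 2 * s ^ 2 * c2 ^ 2) := by ring
  rw [e1, e2, e3, e4]
  have hA : 0 ≤ a ^ 2 := sq_nonneg a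
  have hB : 0 ≤ R ^ 4 * s ^ 2 * b ^ 2 := by positivity
  have hC1 : 0 ≤ R ^ 2 * s ^ 2 * c1 ^ 2 := by positivity
  have hC2 : 0 ≤ R ^ 2 * s ^ 2 * c2 ^ 2 := by positivity
  have hL : 0 ≤ (2 * L + 3) ^ 2 := sq_nonneg _
  have hCC : 0 ≤ C ^ 2 := sq_nonneg _
  nlinarith [mul_nonneg hL hA, mul_nonneg hCC hA, mul_nonneg hL hB, mul_nonneg hCC hB, mul_nonneg hL hC1, mul_nonneg hCC hC1,
    mul_nonneg hL hC2, mul_nonneg hCC hC2]

/-- the pointwise estimate -/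
theorem VEG_pt (ch : ℝ → ℝ) (hs : ContDiff ℝ ∞ ch) (hb : ∀ s, 0 ≤ ch s ∧ ch s ≤ 1) (C L R κ s c w : ℝ)
    (hC : ∀ q : ℝ, 0 ≤ q → q ≤ 1 / 16 → κ * q ≤ 1 → |VEG_G1 ch R κ q| ≤ C * R ∧ |VEG_G2 ch R κ q| ≤ C * R ^ 2)
    (hC1 : 1 ≤ C) (hR : 1 ≤ R) (hκ : 0 ≤ κ) (hs0 : 0 ≤ s) (hs1 : s ≤ 1 / 4) (hs2 : κ * s ^ 2 ≤ 1) (hs3 : 1 ≤ R * s ^ 2)
    (p : ℂ → ℂ) (hp : ∀ v, ‖v‖ < 2 → ContDiffAt ℝ 2 p v) (v lp : ℂ) (hv : ‖v‖ ≤ s)
    (hlp : lp = -(((1 - ‖v‖ ^ 2 / 4) ^ 2 : ℝ) : ℂ) * (fderiv ℝ (fderiv ℝ p) v 1 1 + fderiv ℝ (fderiv ℝ p) v Complex.I Complex.I))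
    (hL : 0 ≤ L) (hcw : |w - c| ≤ L * s) (hc : |c| ≤ 3) :
    ‖VEG_X R c (VEG_H ch R κ p) v‖ ^ 2 ≤ (5 * (16 + 4 * (2 * L + 3) ^ 2 + 160 * C ^ 2)) *
      (‖lp - ((R ^ 2 * w : ℝ) : ℂ) * p v‖ ^ 2 + R ^ 4 * s ^ 2 * ‖p v‖ ^ 2 + R ^ 2 * s ^ 2 * (‖fderiv ℝ p v 1‖ ^ 2 + ‖fderiv ℝ p v Complex.I‖ ^ 2)) := by
  have hv2 : ‖v‖ < 2 := by linarith
  have hq0 : 0 ≤ ‖v‖ ^ 2 := by positivity
  have hqs : ‖v‖ ^ 2 ≤ s ^ 2 := pow_le_pow_left₀ (norm_nonneg _) hv 2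
  have hq1 : ‖v‖ ^ 2 ≤ 1 / 16 := by nlinarith
  have hκq : κ * ‖v‖ ^ 2 ≤ 1 := (mul_le_mul_of_nonneg_left hqs hκ).trans hs2
  obtain ⟨hG1, hG2⟩ := hC _ hq0 hq1 hκq
  have hR0 : 0 ≤ R := by linarith
  refine VEG_num L C R s _ _ _ _ _ hs0 (by linarith) (norm_nonneg _) ?_
  rw [VEG_X_in ch hs R κ c p v hv2 hp]
  -- the weight
  set jj : ℝ := ((1 - ‖v‖ ^ 2 / 4) ^ 2)⁻¹ with hjj
  have hb0 : 63 / 64 ≤ 1 - ‖v‖ ^ 2 / 4 := by linarith
  have hb1 : 1 - ‖v‖ ^ 2 / 4 ≤ 1 := by linarith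
  have hm0 : (1 - ‖v‖ ^ 2 / 4) ^ 2 ≠ 0 := pow_ne_zero _ (by linarith)
  have hmlo : (3969 / 4096 : ℝ) ≤ (1 - ‖v‖ ^ 2 / 4) ^ 2 := by nlinarith
  have hjj0 : 0 ≤ jj := inv_nonneg.2 (by positivity)
  have hjj2 : jj ≤ 2 := by
    have := inv_anti₀ (by norm_num : (0 : ℝ) < 3969 / 4096) hmlo
    rw [hjj]
    linarith [this, (by norm_num : ((3969 / 4096 : ℝ))⁻¹ ≤ 2)]
  have hjj1 : |jj - 1| ≤ s := by
    have h1 : jj - 1 = (1 - (1 - ‖v‖ ^ 2 / 4) ^ 2) * jj := by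
      rw [hjj, sub_mul, mul_inv_cancel₀ hm0, one_mul]
    have h2 : 0 ≤ 1 - (1 - ‖v‖ ^ 2 / 4) ^ 2 := by nlinarith
    rw [h1, abs_of_nonneg (mul_nonneg h2 hjj0)]
    have h3 : 1 - (1 - ‖v‖ ^ 2 / 4) ^ 2 ≤ ‖v‖ ^ 2 / 2 := by nlinarith
    calc (1 - (1 - ‖v‖ ^ 2 / 4) ^ 2) * jj ≤ ‖v‖ ^ 2 / 2 * 2 := mul_le_mul h3 hjj2 hjj0 (by positivity)
      _ = ‖v‖ ^ 2 := by ring
      _ ≤ s ^ 2 := hqs
      _ ≤ s := by nlinarith
  have hB2 : ‖VEG_B ch R κ v‖ ≤ 2 := by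
    unfold VEG_B
    rw [Complex.norm_real]
    unfold VEG_G
    rw [norm_mul, norm_mul, Real.norm_eq_abs, Real.norm_eq_abs, Real.norm_eq_abs, Real.abs_exp, abs_of_nonneg (hb _).1,
      abs_of_nonneg (by positivity)]
    have h1 : Real.exp (-(R * ‖v‖ ^ 2 / 2)) ≤ 1 := Real.exp_le_one_iff.2 (by nlinarith)
    calc Real.exp (-(R * ‖v‖ ^ 2 / 2)) * ch (κ * ‖v‖ ^ 2) * ((1 - ‖v‖ ^ 2 / 4) ^ 2)⁻¹ ≤ 1 * 1 * 2 :=
        mul_le_mul (mul_le_mul h1 (hb _).2 (hb _).1 (by norm_num)) hjj2 hjj0 (by norm_num)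
      _ = 2 := by norm_num
  have hlap : -(fderiv ℝ (fderiv ℝ p) v 1 1 + fderiv ℝ (fderiv ℝ p) v Complex.I Complex.I) = (jj : ℂ) * lp := by
    rw [hlp, hjj]
    have h1 : (((1 - ‖v‖ ^ 2 / 4) ^ 2 : ℝ) : ℂ) ≠ 0 := Complex.ofReal_ne_zero.2 hm0
    rw [Complex.ofReal_inv, ← mul_assoc, mul_neg, inv_mul_cancel₀ h1]
    ring
  -- derivatives of the profile
  have hin : ∀ e : ℂ, ‖e‖ = 1 → |inner ℝ v e| ≤ s := by
    intro e he
    calc |inner ℝ v e| ≤ ‖v‖ * ‖e‖ := abs_real_inner_le_norm v e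
      _ ≤ s := by rw [he, mul_one]; exact hv
  have hD1 : ∀ e : ℂ, ‖e‖ = 1 → ‖fderiv ℝ (VEG_B ch R κ) v e‖ ≤ 2 * C * (R * s) := by
    intro e he
    rw [VEG_B_app ch hs R κ v hv2 e, Complex.norm_real, norm_mul, norm_mul, Real.norm_eq_abs, Real.norm_eq_abs, Real.norm_eq_abs]
    have h1 := hin e he
    have h2 : |(2 : ℝ)| = 2 := abs_of_pos (by norm_num)
    rw [h2]
    calc |VEG_G1 ch R κ (‖v‖ ^ 2)| * (2 * |inner ℝ v e|) ≤ C * R * (2 * s) :=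
        mul_le_mul hG1 (by linarith) (by positivity) (by positivity)
      _ = 2 * C * (R * s) := by ring
  have hD2 : ∀ e : ℂ, ‖e‖ = 1 → ‖fderiv ℝ (fun w => fderiv ℝ (VEG_B ch R κ) w e) v e‖ ≤ 6 * C * (R ^ 2 * s ^ 2) := by
    intro e he
    rw [VEG_B_app2 ch hs R κ v hv2 e, Complex.norm_real, Real.norm_eq_abs]
    have h1 := hin e he
    have h2 : (2 * inner ℝ v e) ^ 2 ≤ 4 * s ^ 2 := by
      have : |inner ℝ v e| ^ 2 ≤ s ^ 2 := pow_le_pow_left₀ (abs_nonneg _) h1 2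
      rw [sq_abs] at this
      nlinarith
    have h3 : inner ℝ e e = (1 : ℝ) := by
      rw [real_inner_self_eq_norm_sq, he]
      norm_num
    have h4 : |VEG_G2 ch R κ (‖v‖ ^ 2) * (2 * inner ℝ v e) ^ 2| ≤ C * R ^ 2 * (4 * s ^ 2) := by
      rw [abs_mul, abs_of_nonneg (sq_nonneg (2 * inner ℝ v e))]
      exact mul_le_mul hG2 h2 (sq_nonneg _) (by positivity)
    have h5 : |VEG_G1 ch R κ (‖v‖ ^ 2) * (2 * inner ℝ e e)| ≤ C * R * 2 := by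
      rw [h3, abs_mul]
      exact mul_le_mul hG1 (by norm_num) (abs_nonneg _) (by positivity)
    have h6 : R ≤ R ^ 2 * s ^ 2 := by nlinarith
    have h7 : C * R ≤ C * (R ^ 2 * s ^ 2) := mul_le_mul_of_nonneg_left h6 (by linarith)
    calc |VEG_G2 ch R κ (‖v‖ ^ 2) * (2 * inner ℝ v e) ^ 2 + VEG_G1 ch R κ (‖v‖ ^ 2) * (2 * inner ℝ e e)|
        ≤ C * R ^ 2 * (4 * s ^ 2) + C * R * 2 := (abs_add_le _ _).trans (add_le_add h4 h5)
      _ ≤ 6 * C * (R ^ 2 * s ^ 2) := by linarith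
  have hn1 : ‖(1 : ℂ)‖ = 1 := norm_one
  have hnI : ‖Complex.I‖ = 1 := Complex.norm_I
  have d1 := hD1 1 hn1
  have dI := hD1 Complex.I hnI
  have e1 := hD2 1 hn1
  have eI := hD2 Complex.I hnI
  rw [hlap]
  generalize fderiv ℝ (fun w => fderiv ℝ (VEG_B ch R κ) w 1) v 1 = B11 at *
  generalize fderiv ℝ (fun w => fderiv ℝ (VEG_B ch R κ) w Complex.I) v Complex.I = B22 at *
  generalize fderiv ℝ (VEG_B ch R κ) v 1 = B1 at *
  generalize fderiv ℝ (VEG_B ch R κ) v Complex.I = B2 at *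
  generalize fderiv ℝ p v 1 = p1 at *
  generalize fderiv ℝ p v Complex.I = p2 at *
  generalize VEG_B ch R κ v = B at *
  generalize p v = P at *
  have hdec : (jj : ℂ) * lp * B - 2 * (p1 * B1 + p2 * B2) - P * (B11 + B22) - ((R ^ 2 * c : ℝ) : ℂ) * (P * B) =
      (jj : ℂ) * (lp - ((R ^ 2 * w : ℝ) : ℂ) * P) * B + ((R ^ 2 * (jj * w - c) : ℝ) : ℂ) * (P * B) -
        2 * (p1 * B1) - 2 * (p2 * B2) - P * (B11 + B22) := by
    push_cast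
    ring
  rw [hdec]
  have t1 : ‖(jj : ℂ) * (lp - ((R ^ 2 * w : ℝ) : ℂ) * P) * B‖ ≤ 4 * ‖lp - ((R ^ 2 * w : ℝ) : ℂ) * P‖ := by
    rw [norm_mul, norm_mul, Complex.norm_real, Real.norm_eq_abs, abs_of_nonneg hjj0]
    calc jj * ‖lp - ((R ^ 2 * w : ℝ) : ℂ) * P‖ * ‖B‖ ≤ 2 * ‖lp - ((R ^ 2 * w : ℝ) : ℂ) * P‖ * 2 :=
        mul_le_mul (mul_le_mul_of_nonneg_right hjj2 (norm_nonneg _)) hB2 (norm_nonneg _) (by positivity)
      _ = _ := by ring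
  have hjw : |jj * w - c| ≤ (2 * L + 3) * s := by
    have h1 : jj * w - c = jj * (w - c) + (jj - 1) * c := by ring
    rw [h1]
    calc |jj * (w - c) + (jj - 1) * c| ≤ |jj * (w - c)| + |(jj - 1) * c| := abs_add_le _ _
      _ ≤ 2 * (L * s) + s * 3 := by
        rw [abs_mul, abs_mul, abs_of_nonneg hjj0]
        exact add_le_add (mul_le_mul hjj2 hcw (abs_nonneg _) (by norm_num)) (mul_le_mul hjj1 hc (abs_nonneg _) hs0)
      _ = _ := by ring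
  have t2 : ‖((R ^ 2 * (jj * w - c) : ℝ) : ℂ) * (P * B)‖ ≤ 2 * (2 * L + 3) * (R ^ 2 * s) * ‖P‖ := by
    rw [norm_mul, norm_mul, Complex.norm_real, Real.norm_eq_abs, abs_mul, abs_of_nonneg (by positivity : (0 : ℝ) ≤ R ^ 2)]
    calc R ^ 2 * |jj * w - c| * (‖P‖ * ‖B‖) ≤ R ^ 2 * ((2 * L + 3) * s) * (‖P‖ * 2) :=
        mul_le_mul (mul_le_mul_of_nonneg_left hjw (by positivity)) (mul_le_mul_of_nonneg_left hB2 (norm_nonneg _)) (by positivity)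
          (by positivity)
      _ = _ := by ring
  have t3 : ∀ x y : ℂ, ‖y‖ ≤ 2 * C * (R * s) → ‖2 * (x * y)‖ ≤ 4 * C * (R * s) * ‖x‖ := by
    intro x y hy
    rw [norm_mul, norm_mul]
    have h2 : ‖(2 : ℂ)‖ = 2 := by simp
    rw [h2]
    have := mul_le_mul_of_nonneg_left hy (norm_nonneg x)
    linarith
  have t4 : ‖P * (B11 + B22)‖ ≤ 12 * C * (R ^ 2 * s ^ 2) * ‖P‖ := by
    rw [norm_mul]
    have h1 : ‖B11 + B22‖ ≤ 12 * C * (R ^ 2 * s ^ 2) := (norm_add_le _ _).trans (by linarith)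
    have := mul_le_mul_of_nonneg_left h1 (norm_nonneg P)
    linarith
  have t31 := t3 p1 B1 d1
  have t32 := t3 p2 B2 dI
  calc ‖(jj : ℂ) * (lp - ((R ^ 2 * w : ℝ) : ℂ) * P) * B + ((R ^ 2 * (jj * w - c) : ℝ) : ℂ) * (P * B) -
        2 * (p1 * B1) - 2 * (p2 * B2) - P * (B11 + B22)‖
      ≤ ‖(jj : ℂ) * (lp - ((R ^ 2 * w : ℝ) : ℂ) * P) * B + ((R ^ 2 * (jj * w - c) : ℝ) : ℂ) * (P * B) - 2 * (p1 * B1) - 2 * (p2 * B2)‖ +
        ‖P * (B11 + B22)‖ := norm_sub_le _ _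
    _ ≤ ‖(jj : ℂ) * (lp - ((R ^ 2 * w : ℝ) : ℂ) * P) * B + ((R ^ 2 * (jj * w - c) : ℝ) : ℂ) * (P * B) - 2 * (p1 * B1)‖ + ‖2 * (p2 * B2)‖ +
        ‖P * (B11 + B22)‖ := by gcongr; exact norm_sub_le _ _
    _ ≤ ‖(jj : ℂ) * (lp - ((R ^ 2 * w : ℝ) : ℂ) * P) * B + ((R ^ 2 * (jj * w - c) : ℝ) : ℂ) * (P * B)‖ + ‖2 * (p1 * B1)‖ + ‖2 * (p2 * B2)‖ +
        ‖P * (B11 + B22)‖ := by gcongr; exact norm_sub_le _ _
    _ ≤ ‖(jj : ℂ) * (lp - ((R ^ 2 * w : ℝ) : ℂ) * P) * B‖ + ‖((R ^ 2 * (jj * w - c) : ℝ) : ℂ) * (P * B)‖ + ‖2 * (p1 * B1)‖ + ‖2 * (p2 * B2)‖ +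
        ‖P * (B11 + B22)‖ := by gcongr; exact norm_add_le _ _
    _ ≤ _ := by linarith

theorem VEG_enorm (x : ℂ) : ‖x‖ₑ ^ 2 = ENNReal.ofReal (‖x‖ ^ 2) := by
  rw [← ofReal_norm, ENNReal.ofReal_pow (norm_nonneg _)]

/-- the final numbers -/
theorem VEG_fin (ζ R K cc a b c x : ℝ) (hζ : 0 < ζ) (hR : 1 ≤ R) (hK0 : 0 ≤ K) (hK : Real.pi ^ 2 * K ≤ R ^ ζ) (hc : 0 ≤ cc)
    (hcR : cc ≤ R ^ (3 / 2 : ℝ)) (ha : 0 ≤ a) (hb : 0 ≤ b) (hc0 : 0 ≤ c)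
    (hx : x ≤ K * (a + R ^ 4 * (R ^ (-(1 / 2) + ζ)) ^ 2 * b + R ^ 2 * (R ^ (-(1 / 2) + ζ)) ^ 2 * c)) :
    (cc / (2 * R ^ 2)) ^ 2 * (2 * Real.pi / R) ^ 2 * x ≤
      R ^ (1 + ζ) * (R ^ (-4 : ℝ) * a + R ^ (-1 + 4 * ζ) * b + R ^ (-3 + 4 * ζ) * c) := by
  have hR0 : 0 < R := by linarith
  set ρ : ℝ := R ^ ζ with hρ
  have hρ1 : 1 ≤ ρ := Real.one_le_rpow hR hζ.le
  have hpw : ∀ n : ℕ, ρ ^ n = R ^ (n * ζ) := by
    intro n
    rw [hρ, ← Real.rpow_natCast, ← Real.rpow_mul hR0.le, mul_comm]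
  have hs2 : (R ^ (-(1 / 2) + ζ)) ^ 2 = ρ ^ 2 / R := by
    rw [hpw 2, ← Real.rpow_natCast, ← Real.rpow_mul hR0.le, eq_div_iff hR0.ne']
    nth_rewrite 2 [← Real.rpow_one R]
    rw [← Real.rpow_add hR0]
    congr 1
    push_cast
    ring
  have h4 : R ^ (1 + ζ) * R ^ (-4 : ℝ) = ρ / R ^ 3 := by
    rw [← Real.rpow_add hR0, eq_div_iff (by positivity), ← Real.rpow_natCast R 3, ← Real.rpow_add hR0, hρ]
    congr 1
    push_cast
    ring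
  have h5 : R ^ (1 + ζ) * R ^ (-1 + 4 * ζ) = ρ ^ 5 := by
    rw [← Real.rpow_add hR0, hpw 5]
    congr 1
    push_cast
    ring
  have h6 : R ^ (1 + ζ) * R ^ (-3 + 4 * ζ) = ρ ^ 5 / R ^ 2 := by
    rw [← Real.rpow_add hR0, eq_div_iff (by positivity), ← Real.rpow_natCast R 2, ← Real.rpow_add hR0, hpw 5]
    congr 1
    push_cast
    ring
  have hcc : cc ^ 2 ≤ R ^ 3 := by
    have h7 := pow_le_pow_left₀ hc hcR 2
    have h8 : (R ^ (3 / 2 : ℝ)) ^ 2 = R ^ 3 := by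
      rw [← Real.rpow_natCast, ← Real.rpow_mul hR0.le, ← Real.rpow_natCast R 3]
      norm_num
    rwa [h8] at h7
  have hk : (cc / (2 * R ^ 2)) ^ 2 * (2 * Real.pi / R) ^ 2 ≤ Real.pi ^ 2 / R ^ 3 := by
    have h7 : (cc / (2 * R ^ 2)) ^ 2 * (2 * Real.pi / R) ^ 2 = Real.pi ^ 2 / R ^ 6 * cc ^ 2 := by
      field_simp
    have h8 : Real.pi ^ 2 / R ^ 3 = Real.pi ^ 2 / R ^ 6 * R ^ 3 := by
      field_simp
    rw [h7, h8]
    exact mul_le_mul_of_nonneg_left hcc (by positivity)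
  have hk0 : 0 ≤ (cc / (2 * R ^ 2)) ^ 2 * (2 * Real.pi / R) ^ 2 := by positivity
  rw [hs2] at hx
  have hY : 0 ≤ K * (a + R ^ 4 * (ρ ^ 2 / R) * b + R ^ 2 * (ρ ^ 2 / R) * c) := by positivity
  have hA : ρ / R ^ 3 * a = ρ / R ^ 3 * a := rfl
  calc (cc / (2 * R ^ 2)) ^ 2 * (2 * Real.pi / R) ^ 2 * x
      ≤ (cc / (2 * R ^ 2)) ^ 2 * (2 * Real.pi / R) ^ 2 * (K * (a + R ^ 4 * (ρ ^ 2 / R) * b + R ^ 2 * (ρ ^ 2 / R) * c)) :=
        mul_le_mul_of_nonneg_left hx hk0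
    _ ≤ Real.pi ^ 2 / R ^ 3 * (K * (a + R ^ 4 * (ρ ^ 2 / R) * b + R ^ 2 * (ρ ^ 2 / R) * c)) := mul_le_mul_of_nonneg_right hk hY
    _ = (Real.pi ^ 2 * K) / R ^ 3 * a + (Real.pi ^ 2 * K) * ρ ^ 2 * b + (Real.pi ^ 2 * K) * ρ ^ 2 / R ^ 2 * c := by
        field_simp
    _ ≤ ρ / R ^ 3 * a + ρ ^ 5 * b + ρ ^ 5 / R ^ 2 * c := by
        have h9 : (Real.pi ^ 2 * K) * ρ ^ 2 ≤ ρ ^ 5 := by
          calc (Real.pi ^ 2 * K) * ρ ^ 2 ≤ ρ * ρ ^ 2 := mul_le_mul_of_nonneg_right hK (by positivity)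
            _ = ρ ^ 3 := by ring
            _ ≤ ρ ^ 5 := pow_le_pow_right₀ hρ1 (by norm_num)
        gcongr
    _ = R ^ (1 + ζ) * (R ^ (-4 : ℝ) * a + R ^ (-1 + 4 * ζ) * b + R ^ (-3 + 4 * ζ) * c) := by
        linear_combination (-a) * h4 + (-b) * h5 + (-c) * h6

theorem VEG_proof (hVCD : VCD_stmt) (hVQF : VQF_stmt) (hVPL : VPL_stmt) (hVPO : VPO_stmt) (hVLP : VLP_stmt) (hVBR : VBR_stmt) : VEG_stmt := by
  intro ch ζ L hch hζ hζ8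
  obtain ⟨R1, hR1, hF⟩ := hVQF ch ζ hch hζ hζ8
  obtain ⟨R2, hR2, hBR⟩ := hVBR ch ζ hch hζ hζ8
  obtain ⟨C, hC1, hC⟩ := VEG_G_bd ch hch.smooth hch.bd
  set K : ℝ := 5 * (16 + 4 * (2 * L + 3) ^ 2 + 160 * C ^ 2) with hKdef
  have hK0 : 0 ≤ K := by positivity
  obtain ⟨R3, hR3⟩ := ((tendsto_rpow_atTop hζ).eventually_ge_atTop (Real.pi ^ 2 * K)).exists_forall_of_atTop
  refine ⟨max (max R1 R2) (max R3 1), le_max_of_le_right (le_max_right _ _), ?_⟩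
  intro R U φ g E0 hR hφ hU hU12 hUL hE0
  have hRR1 : R1 ≤ R := (le_max_of_le_left (le_max_left _ _)).trans hR
  have hRR2 : R2 ≤ R := (le_max_of_le_left (le_max_right _ _)).trans hR
  have hRR3 : R3 ≤ R := (le_max_of_le_right (le_max_left _ _)).trans hR
  have hR11 : 1 ≤ R := (le_max_of_le_right (le_max_right _ _)).trans hR
  have hR0 : 0 < R := by linarith
  obtain ⟨-, -, -, hs14, -, -, -, -, hcRle⟩ := hBR R hRR2
  obtain ⟨hcdi, -, hcdI, -, -, -, -, -, hcont, -⟩ := hVCD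
  have hcdi0 : cdi 0 = I := by
    have := (hcdi I).2
    rwa [hcdI] at this
  set s : ℝ := R ^ (-(1 / 2) + ζ) with hs
  set κ : ℝ := R ^ (1 - 2 * ζ) with hκ
  have hs0 : 0 ≤ s := Real.rpow_nonneg hR0.le _
  have hκ0 : 0 < κ := Real.rpow_pos_of_pos hR0 _
  have hss : s ^ 2 = R ^ (-1 + 2 * ζ) := by
    rw [hs, ← Real.rpow_natCast, ← Real.rpow_mul hR0.le]
    congr 1
    push_cast
    ring
  have hκs : κ * s ^ 2 = 1 := by
    rw [hss, hκ, ← Real.rpow_add hR0, ← Real.rpow_zero R]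
    congr 1
    ring
  have hRs : 1 ≤ R * s ^ 2 := by
    rw [hss]
    have h1 : R * R ^ (-1 + 2 * ζ) = R ^ (2 * ζ) := by
      calc R * R ^ (-1 + 2 * ζ) = R ^ (1 : ℝ) * R ^ (-1 + 2 * ζ) := by rw [Real.rpow_one]
        _ = R ^ (2 * ζ) := by
          rw [← Real.rpow_add hR0]
          congr 1
          ring
    rw [h1]
    exact Real.one_le_rpow hR11 (by linarith)
  have hκR : κ ≤ R := by
    calc κ ≤ R ^ (1 : ℝ) := Real.rpow_le_rpow_of_exponent_le hR11 (by linarith)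
      _ = R := Real.rpow_one R
  set u : ℝ := U (g • I) with hu
  set c : ℝ := u + 2 * E0 with hc
  obtain ⟨hE1, hE2⟩ := abs_le.1 hE0
  obtain ⟨hu1, hu2⟩ := hU12 (g • I)
  have hc3 : |c| ≤ 3 := abs_le.2 ⟨by linarith, by linarith⟩
  have hL0 : 0 ≤ L := by
    have := hUL 1 (by simp)
    have h2 := (abs_nonneg _).trans this
    simpa using h2
  set p : ℂ → ℂ := fun w => φ (g • cdi w) with hpdef
  have hp : ∀ v, ‖v‖ < 2 → ContDiffAt ℝ 2 p v := fun v hv => (hVLP.1 φ g v hφ hv).1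
  obtain ⟨hHcd, hHc⟩ := VEG_H_cd ch hch.smooth hch.zero R κ s hκ0 hs0 hκs.ge (by linarith) p hp
  have hφc : Continuous φ := by
    have h1 : ContinuousOn (QU.onC φ) {w : ℂ | 0 < w.im} := hφ.continuousOn
    have h2 : ∀ z : ℍ, φ z = QU.onC φ (z : ℂ) := fun z => by
      show φ z = φ (ofComplex (z : ℂ))
      rw [ofComplex_apply]
    rw [funext h2]
    exact h1.comp_continuous UpperHalfPlane.continuous_coe fun z => z.im_pos
  -- the coefficients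
  have hQ : ∀ θ E : ℝ, QF U ch ζ R φ (g * kM θ, E) = (cR ch ζ R : ℂ) * Ft R (VEG_H ch R κ p)
      ((Real.sqrt (u + 2 * E) : ℂ) * Complex.exp (((2 * θ : ℝ) : ℂ) * Complex.I)) := fun θ E => hF R U φ g θ E hRR1 hφc
  set X : ℂ → ℂ := VEG_X R c (VEG_H ch R κ p) with hX
  have hXc : Continuous X := VEG_X_cont R c _ hHcd
  have hXs : HasCompactSupport X := VEG_X_supp R c _ hHc
  have hXft : ∀ ξ, Ft R X ξ = ((R ^ 2 * (‖ξ‖ ^ 2 - c) : ℝ) : ℂ) * Ft R (VEG_H ch R κ p) ξ := fun ξ => VEG_X_ft R c ξ _ hHcd hHc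
  have hXint : Integrable X := hXc.integrable_of_hasCompactSupport hXs
  have hXL : MemLp X 2 := hXc.memLp_of_hasCompactSupport hXs
  obtain ⟨hPc, hPl⟩ := hVPL R X hR0 hXint hXL
  set k : ℝ := (cR ch ζ R / (2 * R ^ 2)) ^ 2 with hk
  set f : ℂ → ENNReal := fun ξ => ENNReal.ofReal k * ‖Ft R X ξ‖ₑ ^ 2 with hf
  have hfm : Measurable f := (hPc.measurable.enorm.pow_const 2).const_mul _
  have hLHS : ∫⁻ θ in Ioc 0 (2 * Real.pi), ∫⁻ E in {E : ℝ | -(u / 2) < E},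
      ENNReal.ofReal ((E - E0) ^ 2) * ‖QF U ch ζ R φ (g * kM θ, E)‖ₑ ^ 2 =
      ∫⁻ θ in Ioc 0 (2 * Real.pi), ∫⁻ E in {E : ℝ | -(u / 2) < E}, f ((Real.sqrt (u + 2 * E) : ℂ) * Complex.exp (((2 * θ : ℝ) : ℂ) * Complex.I)) := by
    refine lintegral_congr fun θ => ?_
    refine setLIntegral_congr_fun (measurableSet_lt measurable_const measurable_id) fun E hE => ?_
    have hE' : 0 ≤ u + 2 * E := by
      have : -(u / 2) < E := hE
      linarith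
    show ENNReal.ofReal ((E - E0) ^ 2) * ‖QF U ch ζ R φ (g * kM θ, E)‖ₑ ^ 2 = ENNReal.ofReal k * ‖Ft R X _‖ₑ ^ 2
    rw [hQ, hXft]
    generalize hξ : (Real.sqrt (u + 2 * E) : ℂ) * Complex.exp (((2 * θ : ℝ) : ℂ) * Complex.I) = ξ
    have hn : ‖ξ‖ ^ 2 = u + 2 * E := by
      rw [← hξ, norm_mul, Complex.norm_exp_ofReal_mul_I, mul_one, Complex.norm_real, Real.norm_eq_abs, sq_abs, Real.sq_sqrt hE']
    rw [hn, VEG_enorm, VEG_enorm, ← ENNReal.ofReal_mul (sq_nonneg _), ← ENNReal.ofReal_mul (sq_nonneg _)]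
    congr 1
    rw [norm_mul, norm_mul, Complex.norm_real, Complex.norm_real, mul_pow, mul_pow, Real.norm_eq_abs, Real.norm_eq_abs, sq_abs, sq_abs, hc]
    field_simp
    ring
  rw [hLHS, hVPO u f (by linarith) hfm, lintegral_const_mul _ (hPc.measurable.enorm.pow_const 2), hPl,
    ← ENNReal.ofReal_mul (sq_nonneg _)]
  refine ENNReal.ofReal_le_ofReal ?_
  -- the integral of `X`
  have hsupp : ∫ v in Metric.closedBall (0 : ℂ) s, ‖X v‖ ^ 2 = ∫ v : ℂ, ‖X v‖ ^ 2 := by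
    refine setIntegral_eq_integral_of_forall_compl_eq_zero fun v hv => ?_
    rw [Metric.mem_closedBall, dist_zero_right, not_le] at hv
    rw [hX, VEG_X_out ch hch.zero R κ s c hκ0 hs0 hκs.ge p v hv]
    simp
  have hball : Metric.closedBall (0 : ℂ) s ⊆ Metric.ball (0 : ℂ) 2 := Metric.closedBall_subset_ball (by linarith)
  have hmb : ∀ v ∈ Metric.ball (0 : ℂ) 2, ‖v‖ < 2 := fun v hv => by rwa [Metric.mem_ball, dist_zero_right] at hv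
  have hcD1 : ∀ e : ℂ, ContinuousOn (fun v => fderiv ℝ p v e) (Metric.ball (0 : ℂ) 2) := fun e v hv =>
    ((((hp v (hmb v hv)).fderiv_right (m := 1) (by norm_num)).continuousAt).clm_apply continuousAt_const).continuousWithinAt
  have hcD2 : ∀ e : ℂ, ContinuousOn (fun v => fderiv ℝ (fderiv ℝ p) v e e) (Metric.ball (0 : ℂ) 2) := fun e v hv =>
    ((((((hp v (hmb v hv)).fderiv_right (m := 1) (by norm_num)).fderiv_right (m := 0) (by norm_num)).continuousAt).clm_apply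
      continuousAt_const).clm_apply continuousAt_const).continuousWithinAt
  have hcp : ContinuousOn p (Metric.ball (0 : ℂ) 2) := fun v hv => (hp v (hmb v hv)).continuousAt.continuousWithinAt
  have hcU : ContinuousOn (fun v => U (g • cdi v)) (Metric.ball (0 : ℂ) 2) := hU.comp_continuousOn (hcont g)
  have hcl : ContinuousOn (fun v => QU.lap φ (g • cdi v)) (Metric.ball (0 : ℂ) 2) := by
    have h1 : ContinuousOn (fun v : ℂ => -(((1 - ‖v‖ ^ 2 / 4) ^ 2 : ℝ) : ℂ) * (fderiv ℝ (fderiv ℝ p) v 1 1 +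
        fderiv ℝ (fderiv ℝ p) v Complex.I Complex.I)) (Metric.ball (0 : ℂ) 2) := by
      refine ContinuousOn.mul ?_ ((hcD2 1).add (hcD2 Complex.I))
      have h2 : Continuous (fun v : ℂ => -(((1 - ‖v‖ ^ 2 / 4) ^ 2 : ℝ) : ℂ)) := by fun_prop
      exact h2.continuousOn
    exact h1.congr fun v hv => (hVLP.1 φ g v hφ (hmb v hv)).2
  have hcZ : ContinuousOn (fun v => R ^ (-4 : ℝ) * ‖QU.lap φ (g • cdi v) - ((R ^ 2 * (U (g • cdi v) + 2 * E0) : ℝ) : ℂ) * φ (g • cdi v)‖ ^ 2 +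
      R ^ (-1 + 4 * ζ) * ‖φ (g • cdi v)‖ ^ 2 + R ^ (-3 + 4 * ζ) * (‖fderiv ℝ p v 1‖ ^ 2 + ‖fderiv ℝ p v Complex.I‖ ^ 2))
      (Metric.ball (0 : ℂ) 2) := by
    have h1 : ContinuousOn (fun v => ((R ^ 2 * (U (g • cdi v) + 2 * E0) : ℝ) : ℂ)) (Metric.ball (0 : ℂ) 2) :=
      Complex.continuous_ofReal.comp_continuousOn (continuousOn_const.mul (hcU.add continuousOn_const))
    exact ((continuousOn_const.mul ((hcl.sub (h1.mul hcp)).norm.pow 2)).add (continuousOn_const.mul (hcp.norm.pow 2))).add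
      (continuousOn_const.mul (((hcD1 1).norm.pow 2).add ((hcD1 Complex.I).norm.pow 2)))
  have hpt : ∀ v ∈ Metric.closedBall (0 : ℂ) s, k * (2 * Real.pi / R) ^ 2 * ‖X v‖ ^ 2 ≤
      R ^ (1 + ζ) * (R ^ (-4 : ℝ) * ‖QU.lap φ (g • cdi v) - ((R ^ 2 * (U (g • cdi v) + 2 * E0) : ℝ) : ℂ) * φ (g • cdi v)‖ ^ 2 +
      R ^ (-1 + 4 * ζ) * ‖φ (g • cdi v)‖ ^ 2 + R ^ (-3 + 4 * ζ) * (‖fderiv ℝ p v 1‖ ^ 2 + ‖fderiv ℝ p v Complex.I‖ ^ 2)) := by
    intro v hv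
    rw [Metric.mem_closedBall, dist_zero_right] at hv
    have hv2 : ‖v‖ < 2 := by linarith
    have h1 := VEG_pt ch hch.smooth hch.bd C L R κ s c (U (g • cdi v) + 2 * E0)
      (fun q hq0 hq1 hq2 => hC R κ q hR11 hκ0.le hκR hq0 hq1 hq2) hC1 hR11 hκ0.le hs0 hs14 hκs.le hRs p hp v (QU.lap φ (g • cdi v)) hv
      (hVLP.1 φ g v hφ hv2).2 hL0 (by
        have h2 := hUL v (by linarith)
        unfold Ug at h2
        rw [hcdi0] at h2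
        have h3 : U (g • cdi v) + 2 * E0 - c = U (g • cdi v) - U (g • I) := by
          rw [hc, hu]
          ring
        rw [h3]
        exact h2.trans (mul_le_mul_of_nonneg_left hv hL0)) hc3
    exact VEG_fin ζ R K (cR ch ζ R) _ _ _ _ hζ hR11 hK0 (hR3 R hRR3) (Real.sqrt_nonneg _) hcRle (sq_nonneg _) (sq_nonneg _)
      (by positivity) h1
  rw [← mul_assoc, ← hsupp, ← integral_const_mul, ← integral_const_mul]
  refine setIntegral_mono_on ?_ ?_ measurableSet_closedBall hpt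
  · exact ((continuous_const.mul (hXc.norm.pow 2)).continuousOn).integrableOn_compact (isCompact_closedBall _ _)
  · exact (continuousOn_const.mul (hcZ.mono hball)).integrableOn_compact (isCompact_closedBall _ _)

end

end Pool.Agent.VQ
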