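import Pool.Agent.helper74.VQ.SpecA

/-!
# MP_07c750, project VQ, row VQF (the packet coefficients are a Fourier transform)
-/

set_option autoImplicit false

open scoped MatrixGroups ContDiff Topology UpperHalfPlane ComplexConjugate ENNReal
open UpperHalfPlane MeasureTheory Filter Set

namespace Pool.Agent.VQ

open Pool.Agent.RS

theorem VQF_inv (θ : ℝ) : (kM θ)⁻¹ = kM (-θ) := by
  obtain ⟨-, -, -, -, -, -, -, -, -, -, -, -, -, hkadd, -, -, -⟩ := A_GLC
  have k00 : kM 0 = 1 := by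
    have e := hkadd 0 0
    rw [add_zero] at e
    exact (mul_eq_left.1 e.symm)
  have h : kM (-θ) * kM θ = 1 := by rw [← hkadd, neg_add_cancel, k00]
  exact inv_eq_of_mul_eq_one_left h

theorem VQF_kI (θ : ℝ) : kM θ • (I : ℍ) = I := by
  obtain ⟨-, -, -, -, -, -, -, -, -, -, -, -, -, -, -, hkI, -⟩ := A_GLC
  exact hkI θ

theorem VQF_b0 (ch : ℝ → ℝ) (ζ R : ℝ) {v w : ℂ} (h : ‖v‖ = ‖w‖) : b0 ch ζ R v = b0 ch ζ R w := by
  unfold b0
  rw [h]

/-- the identity for all `R` -/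
theorem VQF_all (hVCD : VCD_stmt) (hVCM : VCM_stmt) (ch : ℝ → ℝ) (ζ R : ℝ) (U : ℍ → ℝ) (φ : ℍ → ℂ) (g : SL(2, ℝ)) (θ E : ℝ) :
    QF U ch ζ R φ (g * kM θ, E) = (cR ch ζ R : ℂ) * Ft R (fun v => if ‖v‖ < 2 then φ (g • cdi v) * ((b0 ch ζ R v * jd v : ℝ) : ℂ) else 0)
      ((Real.sqrt (U (g • I) + 2 * E) : ℂ) * Complex.exp (((2 * θ : ℝ) : ℂ) * Complex.I)) := by
  obtain ⟨-, hcd, -, hrot, -⟩ := hVCD
  have hrho : rho U E (g * kM θ) = Real.sqrt (U (g • I) + 2 * E) := by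
    unfold rho
    rw [mul_smul, VQF_kI]
  unfold QF Ft
  rw [hVCM.1 ℂ g, ← integral_const_mul, ← integral_indicator measurableSet_ball]
  congr 1
  funext v
  beta_reduce
  by_cases hv : ‖v‖ < 2
  · have hmem : v ∈ Metric.ball (0 : ℂ) 2 := by rwa [Metric.mem_ball, dist_zero_right]
    rw [indicator_of_mem hmem, if_pos hv]
    have h1 : cd ((g * kM θ)⁻¹ • (g • cdi v)) = Complex.exp (((2 * -θ : ℝ) : ℂ) * Complex.I) * v := by
      rw [_root_.mul_inv_rev, mul_smul, inv_smul_smul, VQF_inv, hrot (-θ), (hcd v hv).1]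
    unfold Gp
    simp only
    rw [h1, hrho]
    have h2 : b0 ch ζ R (Complex.exp (((2 * -θ : ℝ) : ℂ) * Complex.I) * v) = b0 ch ζ R v := by
      apply VQF_b0
      rw [norm_mul, Complex.norm_exp_ofReal_mul_I, one_mul]
    have h3 : (Complex.exp (((2 * -θ : ℝ) : ℂ) * Complex.I) * v).re = Real.cos (2 * θ) * v.re + Real.sin (2 * θ) * v.im := by
      rw [Complex.mul_re, Complex.exp_ofReal_mul_I_re, Complex.exp_ofReal_mul_I_im, mul_neg, Real.cos_neg, Real.sin_neg]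
      ring
    have h4 : ((Real.sqrt (U (g • I) + 2 * E) : ℂ) * Complex.exp (((2 * θ : ℝ) : ℂ) * Complex.I)).re =
        Real.sqrt (U (g • I) + 2 * E) * Real.cos (2 * θ) := by
      rw [Complex.re_ofReal_mul, Complex.exp_ofReal_mul_I_re]
    have h5 : ((Real.sqrt (U (g • I) + 2 * E) : ℂ) * Complex.exp (((2 * θ : ℝ) : ℂ) * Complex.I)).im =
        Real.sqrt (U (g • I) + 2 * E) * Real.sin (2 * θ) := by
      rw [Complex.im_ofReal_mul, Complex.exp_ofReal_mul_I_im]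
    rw [h2, h3, h4, h5, map_mul, Complex.conj_ofReal, ← Complex.exp_conj, map_mul, Complex.conj_ofReal, Complex.conj_I, mul_neg]
    have h6 : R * Real.sqrt (U (g • I) + 2 * E) * (Real.cos (2 * θ) * v.re + Real.sin (2 * θ) * v.im) =
        R * (Real.sqrt (U (g • I) + 2 * E) * Real.cos (2 * θ) * v.re + Real.sqrt (U (g • I) + 2 * E) * Real.sin (2 * θ) * v.im) := by
      ring
    rw [h6, Complex.real_smul]
    push_cast
    ring
  · have hmem : v ∉ Metric.ball (0 : ℂ) 2 := by rwa [Metric.mem_ball, dist_zero_right]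
    rw [indicator_of_notMem hmem, if_neg hv, zero_mul, mul_zero]

theorem VQF_proof (hVCD : VCD_stmt) (hVCM : VCM_stmt) : VQF_stmt := by
  intro ch ζ _ _ _
  exact ⟨1, le_refl 1, fun R U φ g θ E _ _ => VQF_all hVCD hVCM ch ζ R U φ g θ E⟩

end Pool.Agent.VQ
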