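import Pool.Agent.helper84.VQ.Spec4d

/-!
# Project VQ, row CU4: the curve `u ↦ fl τ (g lM u)`
-/

set_option autoImplicit false

open scoped MatrixGroups ContDiff Topology UpperHalfPlane ComplexConjugate ENNReal
open UpperHalfPlane MeasureTheory Filter Set

namespace Pool.Agent.VQ

open Pool.Agent.RS
open Pool.Agent.VQE (nm)

theorem CU4_lM0 : lM 0 = 1 := by
  apply Subtype.ext
  unfold lM
  ext i j
  fin_cases i <;> fin_cases j <;> simp

theorem CU4_inv (y : SL(2, ℝ)) : nm y⁻¹ = nm y := by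
  have e : y⁻¹.1 = !![y.1 1 1, -(y.1 0 1); -(y.1 1 0), y.1 0 0] := by
    rw [Matrix.SpecialLinearGroup.SL2_inv_expl]
    rfl
  have e00 : y⁻¹.1 0 0 = y.1 1 1 := by rw [e]; rfl
  have e01 : y⁻¹.1 0 1 = -(y.1 0 1) := by rw [e]; rfl
  have e10 : y⁻¹.1 1 0 = -(y.1 1 0) := by rw [e]; rfl
  have e11 : y⁻¹.1 1 1 = y.1 0 0 := by rw [e]; rfl
  unfold Pool.Agent.VQE.nm
  rw [e00, e01, e10, e11, abs_neg, abs_neg]
  rw [max_comm (|y.1 1 1 - 1|) (|y.1 0 1|), max_comm (|y.1 1 0|) (|y.1 0 0 - 1|), max_comm (max (|y.1 0 1|) (|y.1 1 1 - 1|)),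
    max_assoc, max_assoc]
  congr 1
  rw [← max_assoc, ← max_assoc, max_comm (|y.1 1 0|) (|y.1 0 1|)]

theorem CU4_R0 (A : Prm) (hA : Adm 10 A) (d : ℝ) (hd : 0 < d) : ∃ R0 : ℝ, 1 ≤ R0 ∧ ∀ R : ℝ, R0 ≤ R →
    2 ≤ A.tu R ∧ 3 / 2 * R ^ (-(1 / 4) : ℝ) ≤ d / 4 ∧ 0 < r2 A R ∧ r2 A R ≤ 1 / 10 ∧
      2 * Real.exp (101 / 100 * A.tu R) * r2 A R ≤ 1 / 100 := by
  have he3 := hA.e3
  have hm : (1 : ℝ) ≤ A.m := by exact_mod_cast hA.m
  have hz := hA.z
  have hz1 := hA.z1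
  have hz2 := hA.z2
  have hup := hA.up
  have htu := hA.tu
  have a0 : 0 ≤ A.z := by linarith
  have a1 : 0 ≤ A.z1 := by linarith
  have a2 : 0 ≤ A.z2 := by linarith
  have a3 : A.z2 ≤ 1 / 10 := by nlinarith
  have hme : 0 < (A.m : ℝ) * A.e3 := by positivity
  have t1 : Tendsto (fun R : ℝ => (A.m : ℝ) * A.e3 * Real.log R) atTop atTop := Real.tendsto_log_atTop.const_mul_atTop hme
  have t2 : Tendsto (fun R : ℝ => R ^ (-(1 / 4) : ℝ)) atTop (𝓝 0) := tendsto_rpow_neg_atTop (by norm_num)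
  have t3 : Tendsto (fun R : ℝ => R ^ (-(3 / 10) : ℝ)) atTop (𝓝 0) := tendsto_rpow_neg_atTop (by norm_num)
  have t4 : Tendsto (fun R : ℝ => R ^ (-(1 / 5) : ℝ)) atTop (𝓝 0) := tendsto_rpow_neg_atTop (by norm_num)
  have e1 := t1.eventually_ge_atTop 2
  have e2 := t2.eventually_le_const (show (0 : ℝ) < d / 8 by linarith)
  have e3 := t3.eventually_le_const (show (0 : ℝ) < 1 / 10 by norm_num)
  have e4 := t4.eventually_le_const (show (0 : ℝ) < 1 / 200 by norm_num)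
  obtain ⟨R0, hR0⟩ := eventually_atTop.1 (e1.and (e2.and (e3.and e4)))
  refine ⟨max 1 R0, le_max_left _ _, fun R hR => ?_⟩
  obtain ⟨h1, h2, h3, h4⟩ := hR0 R ((le_max_right _ _).trans hR)
  have hR1 : (1 : ℝ) ≤ R := (le_max_left _ _).trans hR
  have hRp : 0 < R := by linarith
  have hlog : 0 ≤ Real.log R := Real.log_nonneg hR1
  refine ⟨?_, by linarith, ?_, ?_, ?_⟩
  · unfold Prm.tu Prm.sg
    linarith
  · unfold r2
    positivity
  · unfold r2
    exact (Real.rpow_le_rpow_of_exponent_le hR1 (by linarith)).trans h3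
  · have h5 : Real.exp (101 / 100 * A.tu R) ≤ R ^ (1 / 10 : ℝ) := by
      rw [Real.rpow_def_of_pos hRp]
      refine Real.exp_le_exp.2 ?_
      unfold Prm.tu Prm.sg
      nlinarith
    have h6 : r2 A R ≤ R ^ (-(3 / 10) : ℝ) := by
      unfold r2
      exact Real.rpow_le_rpow_of_exponent_le hR1 (by linarith)
    have h7 : R ^ (1 / 10 : ℝ) * R ^ (-(3 / 10) : ℝ) = R ^ (-(1 / 5) : ℝ) := by
      rw [← Real.rpow_add hRp]
      norm_num
    have h8 : 0 ≤ r2 A R := by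
      unfold r2
      positivity
    have h9 : 0 ≤ R ^ (1 / 10 : ℝ) := by positivity
    calc 2 * Real.exp (101 / 100 * A.tu R) * r2 A R = 2 * (Real.exp (101 / 100 * A.tu R) * r2 A R) := by ring
      _ ≤ 2 * (R ^ (1 / 10 : ℝ) * R ^ (-(3 / 10) : ℝ)) := by gcongr
      _ = 2 * R ^ (-(1 / 5) : ℝ) := by rw [h7]
      _ ≤ 1 / 100 := by linarith

theorem CU4_cont {γ : ℝ → SL(2, ℝ)} {x b c : ℝ → ℝ} (h : Cv γ x b c) : Continuous γ := by
  refine continuous_induced_rng.2 (continuous_matrix fun i j => ?_)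
  exact continuous_iff_continuousAt.2 fun v => (h.der v i j).continuousAt

theorem CU4_proof (hRFF : RFF_stmt) (hRJT : RJT_stmt) (hRGF : RGF_stmt) (hRSL : RSL_stmt) (hRDR : RDR_stmt)
    (hVYU : VYU_stmt) : CU4_stmt := by
  intro Γ hΓ
  obtain ⟨K, δ1, hK, hδ1, hFF⟩ := hRFF Γ hΓ
  obtain ⟨CV, hCV, hV⟩ := hVYU
  have hK0 : 0 < K := by linarith
  have hKi : 0 < 1 / (10000 * K) := by positivity
  refine ⟨min δ1 (1 / (10000 * K)), 3 * CV, lt_min hδ1 hKi, by linarith, fun A hA => ?_⟩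
  set δ0 : ℝ := min δ1 (1 / (10000 * K)) with hδ0
  have hδ0p : 0 < δ0 := lt_min hδ1 hKi
  have hd0 : 0 < K * δ0 := mul_pos hK0 hδ0p
  have hd1 : K * δ0 ≤ 1 / 10000 := by
    have h1 : δ0 ≤ 1 / (10000 * K) := min_le_right _ _
    calc K * δ0 ≤ K * (1 / (10000 * K)) := by gcongr
      _ = 1 / 10000 := by field_simp
  have hδ10 : δ0 ≤ 1 / 10 := by nlinarith
  obtain ⟨R0, hR01, hR0⟩ := CU4_R0 A hA (K * δ0) hd0
  refine ⟨R0, hR01, fun B R D hR hD p hp => ?_⟩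
  obtain ⟨hτ, hE4, hr0, hr1, hr2⟩ := hR0 R hR
  have hF : FF (K * δ0) D := hFF δ0 B D hδ0p (min_le_left _ _) hD
  have hE : |p.2| ≤ K * δ0 / 4 := (abs_le.2 hp).trans hE4
  have hE8 : |p.2| ≤ 1 / 8 := by linarith
  obtain ⟨-, -, j3, j4, -⟩ := hRJT
  have g0 : RG 2 (fun u => p.1 * lM u) (fun _ => 0) (fun _ => 0) (fun _ => 1) (fun u => u) :=
    j3 (1 / 2) 2 _ _ _ _ _ (by norm_num) (by norm_num) (j4 p.1)
  obtain ⟨X, Y, Z, L, h0, hVS, hCC, hL0, hLg, -, hG⟩ := hRGF (K * δ0) D hF hd0 hd1 p.2 _ _ _ _ _ hE g0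
  set τ : ℝ := A.tu R with hτd
  have hG2 := hG τ hτ
  have hC2 := hCC τ (by linarith)
  have hVS0 := hVS 0
  have e0 : p.1 * lM 0 = p.1 := by rw [CU4_lM0, mul_one]
  have hZ0 : 0 < Z τ 0 := hC2.pos 0
  have hgrow : ∀ v v' : ℝ, v ≤ v' → L τ v' - L τ v ≤ Real.exp (101 / 100 * τ) * (v' - v) := by
    intro v v' hv
    have h1 := (hLg 0 τ v v' le_rfl (by linarith) hv).2
    rw [hL0, sub_zero] at h1
    exact h1
  have hmono : ∀ v v' : ℝ, v ≤ v' → 0 ≤ L τ v' - L τ v := by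
    intro v v' hv
    have h1 := (hLg 0 τ v v' le_rfl (by linarith) hv).1
    rw [hL0, sub_zero] at h1
    have h2 : 0 ≤ Real.exp (99 / 100 * τ) * (v' - v) := mul_nonneg (Real.exp_pos _).le (by linarith)
    exact h2.trans h1
  have hep : 0 < Real.exp (101 / 100 * τ) := Real.exp_pos _
  have hsmall : Real.exp (101 / 100 * τ) * r2 A R ≤ 1 / 200 := by linarith
  -- `Z τ v ≤ (101/100) Z τ 0`
  have hZ : ∀ v : ℝ, |v| ≤ r2 A R → Z τ v ≤ 101 / 100 * Z τ 0 := by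
    intro v hv
    have hlog : Real.log (Z τ v) - Real.log (Z τ 0) ≤ 1 / 400 := by
      rcases le_total 0 v with hv0 | hv0
      · have h1 := hgrow 0 v hv0
        have h2 : v ≤ r2 A R := (le_abs_self v).trans hv
        have h3 : Real.exp (101 / 100 * τ) * (v - 0) ≤ Real.exp (101 / 100 * τ) * r2 A R := by
          gcongr
          linarith
        have h4 := hG2.di 0 v hv0 (by linarith)
        have h5 := (abs_le.1 h4).2
        linarith
      · have h1 := hgrow v 0 hv0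
        have h2 : -v ≤ r2 A R := (neg_le_abs v).trans hv
        have h3 : Real.exp (101 / 100 * τ) * (0 - v) ≤ Real.exp (101 / 100 * τ) * r2 A R := by
          gcongr
          linarith
        have h4 := hG2.di v 0 hv0 (by linarith)
        have h5 := (abs_le.1 h4).1
        linarith
    have h1 : Real.log (Z τ v) ≤ Real.log (Z τ 0) + 1 / 400 := by linarith
    have h2 : Z τ v ≤ Real.exp (Real.log (Z τ 0) + 1 / 400) := by
      rw [← Real.log_le_iff_le_exp (hC2.pos v)]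
      exact h1
    rw [Real.exp_add, Real.exp_log hZ0] at h2
    have h3 : Real.exp (1 / 400) ≤ 101 / 100 := by
      have h4 := Real.abs_exp_sub_one_le (x := (1 / 400 : ℝ)) (by rw [abs_of_pos (by norm_num)]; norm_num)
      rw [abs_of_pos (show (0 : ℝ) < 1 / 400 by norm_num)] at h4
      have h5 := (abs_le.1 h4).2
      linarith
    nlinarith
  have hlen : ∀ v v' : ℝ, |v| ≤ r2 A R → |v'| ≤ r2 A R → v ≤ v' → L τ v' - L τ v ≤ 101 / 100 * Z τ 0 * (v' - v) := by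
    intro v v' hv hv' hvv
    rcases eq_or_lt_of_le hvv with h | h
    · rw [h]; simp
    obtain ⟨w, hw, hw'⟩ := exists_hasDerivAt_eq_slope (L τ) (Z τ) h
      (fun u _ => (hC2.dl u).continuousAt.continuousWithinAt) (fun u _ => hC2.dl u)
    have h1 : |w| ≤ r2 A R := by
      have h2 := abs_le.1 hv
      have h3 := abs_le.1 hv'
      exact abs_le.2 ⟨by linarith [hw.1], by linarith [hw.2]⟩
    have h2 := hZ w h1
    have h3 : L τ v' - L τ v = Z τ w * (v' - v) := by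
      rw [hw']
      have : v' - v ≠ 0 := by linarith
      field_simp
    rw [h3]
    exact mul_le_mul_of_nonneg_right h2 (by linarith)
  have hnm : ∀ v v' : ℝ, |v| ≤ r2 A R → |v'| ≤ r2 A R → v ≤ v' →
      nm ((D.fl p.2 τ (p.1 * lM v))⁻¹ * D.fl p.2 τ (p.1 * lM v')) ≤ 2 * Z τ 0 * (v' - v) := by
    intro v v' hv hv' hvv
    have h1 := hlen v v' hv hv' hvv
    have h2 := hgrow v v' hvv
    have h3 : Real.exp (101 / 100 * τ) * (v' - v) ≤ 1 / 100 := by
      have h4 := (abs_le.1 hv).1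
      have h5 := (abs_le.1 hv').2
      have h6 : Real.exp (101 / 100 * τ) * (v' - v) ≤ Real.exp (101 / 100 * τ) * (2 * r2 A R) := by
        gcongr
        linarith
      linarith
    have h4 := (hRDR _ _ _ _ _ hC2 v v' hvv (by linarith)).1
    have h5 : 0 ≤ Z τ 0 * (v' - v) := mul_nonneg hZ0.le (by linarith)
    calc nm ((D.fl p.2 τ (p.1 * lM v))⁻¹ * D.fl p.2 τ (p.1 * lM v')) ≤ 11 / 10 * (L τ v' - L τ v) := h4
      _ ≤ 11 / 10 * (101 / 100 * Z τ 0 * (v' - v)) := by gcongr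
      _ ≤ 2 * Z τ 0 * (v' - v) := by nlinarith
  -- the size of `Z τ 0`
  have hZe : Z τ 0 ≤ Real.exp (101 / 100 * τ) := by
    have h1 := (hRSL (K * δ0) D hF hd0 hd1 p.2 _ _ _ _ hE hVS0 (by rw [(h0 0).2.2]; norm_num)
      (by rw [(h0 0).1, (h0 0).2.1, (h0 0).2.2]; norm_num) τ (by linarith)).2.1 0 le_rfl (by linarith)
    have h2 := h1.2
    rw [(h0 0).2.2, sub_zero, mul_one] at h2
    exact h2
  have hdet : 2 * Z τ 0 ≤ 3 * CV * ‖(D.Y p.2 τ p.1).det‖ := by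
    have h1 := hV Γ δ0 B D hD hδ10 p.2 (p.1 * lM 0) _ _ _ hE8 hVS0 (by rw [(h0 0).1]; norm_num)
      (by rw [(h0 0).2.1]; norm_num) (by rw [(h0 0).2.2]; norm_num) τ
    rw [e0] at h1
    have h2 := hC2.cone 0
    have h3 : |Y τ 0| ≤ Z τ 0 / 50 := by
      refine abs_le_of_sq_le_sq ?_ (by linarith)
      nlinarith [sq_nonneg (X τ 0)]
    have h4 : Z τ 0 - |Y τ 0| ≤ |Y τ 0 + Z τ 0| := by
      have h5 := (abs_le.1 (le_refl |Y τ 0|)).1
      have h6 := le_abs_self (Y τ 0 + Z τ 0)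
      linarith
    linarith
  refine ⟨2 * Z τ 0, hdet, ?_⟩
  exact
    { cont := continuous_const.mul (CU4_cont hC2.toCv)
      zero := by
        rw [e0, inv_mul_cancel]
      c0 := by linarith
      r0 := hr0
      r1 := hr1
      cr := by
        have h1 : 2 * Z τ 0 * r2 A R ≤ 2 * Real.exp (101 / 100 * τ) * r2 A R := by gcongr
        linarith
      lip := by
        intro u hu u' hu'
        have hu1 : |u| ≤ r2 A R := abs_le.2 hu
        have hu2 : |u'| ≤ r2 A R := abs_le.2 hu'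
        change nm (((D.fl p.2 τ p.1)⁻¹ * D.fl p.2 τ (p.1 * lM u))⁻¹ * ((D.fl p.2 τ p.1)⁻¹ * D.fl p.2 τ (p.1 * lM u'))) ≤ _
        have e1 : ((D.fl p.2 τ p.1)⁻¹ * D.fl p.2 τ (p.1 * lM u))⁻¹ * ((D.fl p.2 τ p.1)⁻¹ * D.fl p.2 τ (p.1 * lM u')) =
            (D.fl p.2 τ (p.1 * lM u))⁻¹ * D.fl p.2 τ (p.1 * lM u') := by group
        rw [e1]
        rcases le_total u u' with h | h
        · rw [abs_sub_comm, abs_of_nonneg (by linarith)]
          exact hnm u u' hu1 hu2 h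
        · rw [abs_of_nonneg (by linarith)]
          have h1 := hnm u' u hu2 hu1 h
          rw [← CU4_inv] at h1
          have e2 : ((D.fl p.2 τ (p.1 * lM u'))⁻¹ * D.fl p.2 τ (p.1 * lM u))⁻¹ =
              (D.fl p.2 τ (p.1 * lM u))⁻¹ * D.fl p.2 τ (p.1 * lM u') := by group
          rwa [e2] at h1 }

end Pool.Agent.VQ
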