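import Pool.Agent.helper80.VQ.SpecFL

/-!
# Project VQ, block FL, row PGV: the potentials of VQ are general potentials
-/

set_option autoImplicit false

open scoped MatrixGroups ContDiff Topology UpperHalfPlane ComplexConjugate ENNReal
open UpperHalfPlane MeasureTheory Filter Set

namespace Pool.Agent.VQ

open Pool.Agent.RS
open Pool.Agent.VQE (nm)

theorem PGV_cdi0 : cdi 0 = I := by
  unfold cdi
  have h : Complex.I * (2 + 0) / (2 - 0) = ((I : ℍ) : ℂ) := by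
    rw [UpperHalfPlane.coe_I]
    simp
  rw [h, UpperHalfPlane.ofComplex_apply]

theorem PGV_U {Γ : Subgroup SL(2, ℝ)} {δ : ℝ} {B : ℕ → ℝ} {U : ℍ → ℝ} (hU : Pot Γ δ B U) (z : ℍ) : |U z - 1| ≤ δ := by
  have h1 := hU.near (toSL2R z) 0 (by simp) 0 (by norm_num)
  have h2 : Ug U (toSL2R z) 0 = U z := by
    unfold Ug
    rw [PGV_cdi0, toSL2R_smul_I]
  rw [norm_iteratedFDeriv_zero, Real.norm_eq_abs, h2] at h1
  exact h1

theorem PGV_bd {f : ℂ → ℝ} {δ : ℝ} {v : ℂ} {n : ℕ} (hδ : δ ≤ 1 / 10)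
    (h : ‖iteratedFDeriv ℝ n (fun w => f w - 1) v‖ ≤ δ) : ‖iteratedFDeriv ℝ n f v‖ ≤ 11 / 10 := by
  cases n with
  | zero =>
    rw [norm_iteratedFDeriv_zero, Real.norm_eq_abs] at h
    rw [norm_iteratedFDeriv_zero, Real.norm_eq_abs]
    have h1 := abs_le.1 h
    exact abs_le.2 ⟨by linarith, by linarith⟩
  | succ n =>
    rw [← norm_iteratedFDeriv_fderiv] at h
    rw [← norm_iteratedFDeriv_fderiv]
    have h1 : fderiv ℝ (fun w => f w - 1) = fderiv ℝ f := by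
      funext w
      rw [fderiv_sub_const]
    rw [h1] at h
    linarith

theorem PGV_pot {Γ : Subgroup SL(2, ℝ)} {δ : ℝ} {B : ℕ → ℝ} {U : ℍ → ℝ} (hU : Pot Γ δ B U) (hδ : δ ≤ 1 / 10) :
    Pg Γ (1 / 8) (Bx B) U where
  pos := by norm_num
  smooth := hU.smooth
  inv := hU.inv
  lo := fun z => by
    have := (abs_le.1 (PGV_U hU z)).1
    linarith
  bd := fun g v hv n => by
    unfold Bx
    by_cases hn : n ≤ 3
    · rw [if_pos hn]
      exact PGV_bd hδ (hU.near g v hv n hn)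
    · rw [if_neg hn]
      exact hU.bd g v hv n

theorem PGV_proof : PGV_stmt := by
  refine ⟨fun Γ δ B U hU hδ => PGV_pot hU hδ, fun Γ δ B D hD hδ => ?_, fun Γ δ B D hU hD => ?_⟩
  · exact { pot := PGV_pot hD.pot hδ, fl0 := hD.fl0, out := hD.out, dfl := hD.dfl, cfl := hD.cfl, Y0 := hD.Y0, P0 := hD.P0, S0 := hD.S0, a0 := hD.a0, dY := hD.dY, dP := hD.dP, dS := hD.dS, da := hD.da, cY := hD.cY, cP := hD.cP, cS := hD.cS, ca := hD.ca }
  · exact { pot := hU, fl0 := hD.fl0, out := hD.out, dfl := hD.dfl, cfl := hD.cfl, Y0 := hD.Y0, P0 := hD.P0, S0 := hD.S0, a0 := hD.a0, dY := hD.dY, dP := hD.dP, dS := hD.dS, da := hD.da, cY := hD.cY, cP := hD.cP, cS := hD.cS, ca := hD.ca }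

end Pool.Agent.VQ
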