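import Pool.Agent.helper93.VQ.Spec4c

/-!
# Project VQ, row RIA: iteration of the domination
-/

set_option autoImplicit false

open scoped MatrixGroups ContDiff Topology UpperHalfPlane ComplexConjugate ENNReal
open UpperHalfPlane MeasureTheory Filter Set

namespace Pool.Agent.VQ

open Pool.Agent.RS
open Pool.Agent.VQE (nm)

theorem RIA_adm {C C' : ℝ} {A : Prm} (h : Adm C A) (h1 : 1 ≤ C') (h2 : C' ≤ C) : Adm C' A := by
  have e3 := h.e3
  have hz := h.z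
  have hz1 := h.z1
  have hz2 := h.z2
  have hm : (1 : ℝ) ≤ A.m := by exact_mod_cast h.m
  have a0 : 0 ≤ A.z := by nlinarith
  have a1 : 0 ≤ A.z1 := by nlinarith
  have a2 : 0 ≤ A.z2 := by nlinarith
  refine ⟨h.e3, h.m, ?_, ?_, ?_, ?_, h.tu⟩
  · nlinarith
  · nlinarith
  · nlinarith
  · have := h.up
    have a3 : 0 ≤ (A.m : ℝ) * A.z2 := by positivity
    nlinarith

theorem RIA_z2 {C : ℝ} {A : Prm} (h : Adm C A) (h1 : 1 ≤ C) : 0 ≤ A.z2 := by
  have e3 := h.e3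
  have hz := h.z
  have hz1 := h.z1
  have hz2 := h.z2
  have a0 : 0 ≤ A.z := by nlinarith
  have a1 : 0 ≤ A.z1 := by nlinarith
  nlinarith

theorem RIA_okd {Γ : Subgroup SL(2, ℝ)} {δ δ' : ℝ} {B : ℕ → ℝ} {D : Dyn} (h : OKD Γ δ B D) (h1 : δ ≤ δ') : OKD Γ δ' B D :=
  { h with pot := { h.pot with near := fun g v hv n hn => (h.pot.near g v hv n hn).trans h1 } }

theorem RIA_proof (hDOM : DOM_stmt) (hRMS : RMS_stmt) (hSD4 : SD4_stmt) (hI4 : I4_stmt) : RIA_stmt := by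
  intro Γ ch hΓ hch
  obtain ⟨δ1, C1, hδ1, hC1, h1⟩ := hDOM Γ ch hΓ hch
  obtain ⟨δ2, hδ2, h2⟩ := hRMS Γ hΓ
  obtain ⟨δ3, C3, hδ3, hC3, h3⟩ := hSD4 Γ hΓ
  obtain ⟨δ4, C4, hδ4, hC4, h4⟩ := hI4 Γ ch hΓ hch
  refine ⟨min (min δ1 δ2) (min δ3 δ4), max C1 (max C3 C4), lt_min (lt_min hδ1 hδ2) (lt_min hδ3 hδ4),
    hC1.trans (le_max_left _ _), fun B A hA => ?_⟩
  have hCC : (1 : ℝ) ≤ max C1 (max C3 C4) := hC1.trans (le_max_left _ _)
  have hz2 : 0 ≤ A.z2 := RIA_z2 hA hCC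
  obtain ⟨R1, hR1, g1⟩ := h1 B A (RIA_adm hA hC1 (le_max_left _ _))
  obtain ⟨R3, hR3, g3⟩ := h3 B A (RIA_adm hA hC3 ((le_max_left _ _).trans (le_max_right _ _)))
  obtain ⟨d, R4, hd, hR4, g4⟩ := h4 B A (RIA_adm hA hC4 ((le_max_right _ _).trans (le_max_right _ _)))
  refine ⟨max R1 (max R3 R4), hR1.trans (le_max_left _ _), fun R D hR hD V hV => ?_⟩
  have hRa : R1 ≤ R := (le_max_left _ _).trans hR
  have hRb : R3 ≤ R := ((le_max_left _ _).trans (le_max_right _ _)).trans hR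
  have hRc : R4 ≤ R := ((le_max_right _ _).trans (le_max_right _ _)).trans hR
  have hR0 : (1 : ℝ) ≤ R := hR1.trans hRa
  have hRpos : 0 < R := by linarith
  have hD1 : OKD Γ δ1 B D := RIA_okd hD ((min_le_left _ _).trans (min_le_left _ _))
  have hD2 : OKD Γ δ2 B D := RIA_okd hD ((min_le_left _ _).trans (min_le_right _ _))
  have hD3 : OKD Γ δ3 B D := RIA_okd hD ((min_le_right _ _).trans (min_le_left _ _))
  have hD4 : OKD Γ δ4 B D := RIA_okd hD ((min_le_right _ _).trans (min_le_right _ _))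
  have hdom := g1 R D hRa hD1
  obtain ⟨-, hPV, -⟩ := h2 B D hD2
  have hsd := g3 R D hRb hD3
  obtain ⟨-, -, -, hre, -⟩ := g4 R D hRc hD4
  have hr2 : R ^ (-(1 / 2) + 3 / 2 * A.z2) ≤ r2 A R := by
    unfold r2
    exact Real.rpow_le_rpow_of_exponent_le hR0 (by linarith)
  have hr0 : 0 ≤ r2 A R := by
    unfold r2
    positivity
  have hmeas : ∀ n : ℕ, Measurable ((PV D A R)^[n] V) := by
    intro n
    induction n with
    | zero => exact hV
    | succ n ih =>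
      rw [Function.iterate_succ_apply']
      exact hPV A R _ ih
  have hK : ENNReal.ofReal (R ^ (4 + C1 * A.z2)) ≤ ENNReal.ofReal (R ^ (4 + max C1 (max C3 C4) * A.z2)) := by
    refine ENNReal.ofReal_le_ofReal (Real.rpow_le_rpow_of_exponent_le hR0 ?_)
    have := mul_le_mul_of_nonneg_right (le_max_left C1 (max C3 C4)) hz2
    linarith
  set K : ℝ≥0∞ := ENNReal.ofReal (R ^ (4 + max C1 (max C3 C4) * A.z2)) with hKdef
  have hKtop : K ≠ ⊤ := ENNReal.ofReal_ne_top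
  intro n
  induction n with
  | zero =>
    intro p hp
    simp [qZ]
  | succ n ih =>
    intro p hp
    have hwin : p.2 ∈ Wi (3 / 2) R := by
      have h5 : |p.2| ≤ 3 / 2 * R ^ (-(1 / 4) : ℝ) := by
        have : (0 : ℝ) ≤ ((n + 1 : ℕ) : ℝ) * r2 A R := by positivity
        linarith
      exact abs_le.1 h5
    change ∫⁻ y, ‖ub D ch A R p y‖ₑ ^ 2 * qZ (mW R) (fun x y => ‖ub D ch A R x y‖ₑ) n V y ∂mW R ≤ _
    have hstep : ∀ y : SL(2, ℝ) × ℝ, ‖ub D ch A R p y‖ₑ ^ 2 * qZ (mW R) (fun x y => ‖ub D ch A R x y‖ₑ) n V y ≤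
        K ^ n * (‖ub D ch A R p y‖ₑ ^ 2 * (PV D A R)^[n] V y) := by
      intro y
      by_cases hy : ub D ch A R p y = 0
      · rw [hy]
        simp
      · have h6 := (hsd p y (hre p y hy)).1
        have h7 : |y.2| ≤ |p.2| + r2 A R := by
          have h8 : |y.2| - |p.2| ≤ |y.2 - p.2| := abs_sub_abs_le_abs_sub _ _
          rw [abs_sub_comm] at h8
          linarith
        have h9 : |y.2| + n * r2 A R ≤ 3 / 2 * R ^ (-(1 / 4) : ℝ) := by
          push_cast at hp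
          linarith
        calc ‖ub D ch A R p y‖ₑ ^ 2 * qZ (mW R) (fun x y => ‖ub D ch A R x y‖ₑ) n V y
            ≤ ‖ub D ch A R p y‖ₑ ^ 2 * (K ^ n * (PV D A R)^[n] V y) := mul_le_mul_right (ih y h9) _
          _ = K ^ n * (‖ub D ch A R p y‖ₑ ^ 2 * (PV D A R)^[n] V y) := by ring
    calc ∫⁻ y, ‖ub D ch A R p y‖ₑ ^ 2 * qZ (mW R) (fun x y => ‖ub D ch A R x y‖ₑ) n V y ∂mW R
        ≤ ∫⁻ y, K ^ n * (‖ub D ch A R p y‖ₑ ^ 2 * (PV D A R)^[n] V y) ∂mW R := lintegral_mono hstep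
      _ = K ^ n * ∫⁻ y, ‖ub D ch A R p y‖ₑ ^ 2 * (PV D A R)^[n] V y ∂mW R :=
          lintegral_const_mul' _ _ (ENNReal.pow_ne_top hKtop)
      _ ≤ K ^ n * (ENNReal.ofReal (R ^ (4 + C1 * A.z2)) * PV D A R ((PV D A R)^[n] V) p) :=
          mul_le_mul_right (hdom p _ hwin (hmeas n)) _
      _ ≤ K ^ n * (K * PV D A R ((PV D A R)^[n] V) p) := by gcongr
      _ = K ^ (n + 1) * (PV D A R)^[n + 1] V p := by
          rw [Function.iterate_succ_apply']
          ring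

end Pool.Agent.VQ
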