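import Pool.Agent.helper93.VQ.Spec4c

/-!
# Project VQ, row RIB: iteration along regular curves
-/

set_option autoImplicit false

open scoped MatrixGroups ContDiff Topology UpperHalfPlane ComplexConjugate ENNReal
open UpperHalfPlane MeasureTheory Filter Set

namespace Pool.Agent.VQ

open Pool.Agent.RS
open Pool.Agent.VQE (nm)

theorem RIB_okd {Γ : Subgroup SL(2, ℝ)} {δ δ' : ℝ} {B : ℕ → ℝ} {D : Dyn} (h : OKD Γ δ B D) (h1 : δ ≤ δ') : OKD Γ δ' B D :=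
  { h with pot := { h.pot with near := fun g v hv n hn => (h.pot.near g v hv n hn).trans h1 } }

theorem RIB_lM {u r : ℝ} (hu : |u| ≤ r) : nm (lM u) ≤ r := by
  unfold Pool.Agent.VQE.nm lM
  simp only [Matrix.of_apply, Matrix.cons_val', Matrix.cons_val_zero, Matrix.cons_val_one, Matrix.cons_val_fin_one]
  simp [hu]

theorem RIB_na {x s r : ℝ} (hr : 0 ≤ r) (hr1 : r ≤ 1 / 20000) (hx : |x| ≤ r) (hs : |s| ≤ r) : nm (nM x * aM s) ≤ 1 / 10000 := by
  have h1 : |Real.exp (s / 2) - 1| ≤ 2 * |s / 2| := Real.abs_exp_sub_one_le (by rw [abs_div, abs_two]; linarith)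
  have h2 : |Real.exp (-(s / 2)) - 1| ≤ 2 * |-(s / 2)| := Real.abs_exp_sub_one_le (by rw [abs_neg, abs_div, abs_two]; linarith)
  rw [abs_div, abs_two] at h1
  rw [abs_neg, abs_div, abs_two] at h2
  have h3 : Real.exp (-(s / 2)) ≤ 2 := by
    have := (abs_le.1 h2).2
    linarith
  have h4 : 0 < Real.exp (-(s / 2)) := Real.exp_pos _
  have e00 : (nM x * aM s).1 0 0 = Real.exp (s / 2) := by
    simp [nM, aM, Matrix.mul_apply, Fin.sum_univ_two]
  have e01 : (nM x * aM s).1 0 1 = x * Real.exp (-(s / 2)) := by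
    simp [nM, aM, Matrix.mul_apply, Fin.sum_univ_two]
  have e10 : (nM x * aM s).1 1 0 = 0 := by
    simp [nM, aM, Matrix.mul_apply, Fin.sum_univ_two]
  have e11 : (nM x * aM s).1 1 1 = Real.exp (-(s / 2)) := by
    simp [nM, aM, Matrix.mul_apply, Fin.sum_univ_two]
  unfold Pool.Agent.VQE.nm
  rw [e00, e01, e10, e11]
  refine max_le (max_le ?_ ?_) (max_le ?_ ?_)
  · linarith
  · rw [abs_mul, abs_of_pos h4]
    nlinarith [abs_nonneg x]
  · rw [abs_zero]; norm_num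
  · linarith

theorem RIB_R0 (A : Prm) (hA : Adm 10 A) (d : ℝ) (hd : 0 < d) : ∃ R0 : ℝ, 1 ≤ R0 ∧ ∀ R : ℝ, R0 ≤ R →
    2 ≤ A.tu R ∧ 2 * R ^ (-(1 / 4) : ℝ) ≤ d / 4 ∧ 0 ≤ r2 A R ∧ r2 A R ≤ 1 / 20000 := by
  have he3 := hA.e3
  have hm : (1 : ℝ) ≤ A.m := by exact_mod_cast hA.m
  have hz := hA.z
  have hz1 := hA.z1
  have hz2 := hA.z2
  have hup := hA.up
  have a0 : 0 ≤ A.z := by linarith
  have a1 : 0 ≤ A.z1 := by linarith
  have a2 : 0 ≤ A.z2 := by linarith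
  have a3 : A.z2 ≤ 1 / 10 := by nlinarith
  have hme : 0 < (A.m : ℝ) * A.e3 := by positivity
  have t1 : Tendsto (fun R : ℝ => (A.m : ℝ) * A.e3 * Real.log R) atTop atTop := Real.tendsto_log_atTop.const_mul_atTop hme
  have t2 : Tendsto (fun R : ℝ => R ^ (-(1 / 4) : ℝ)) atTop (𝓝 0) := tendsto_rpow_neg_atTop (by norm_num)
  have t3 : Tendsto (fun R : ℝ => R ^ (-(3 / 10) : ℝ)) atTop (𝓝 0) := tendsto_rpow_neg_atTop (by norm_num)
  have e1 := t1.eventually_ge_atTop 2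
  have e2 := t2.eventually_le_const (show (0 : ℝ) < d / 8 by linarith)
  have e3 := t3.eventually_le_const (show (0 : ℝ) < 1 / 20000 by norm_num)
  obtain ⟨R0, hR0⟩ := eventually_atTop.1 (e1.and (e2.and e3))
  refine ⟨max 1 R0, le_max_left _ _, fun R hR => ?_⟩
  obtain ⟨h1, h2, h3⟩ := hR0 R ((le_max_right _ _).trans hR)
  have hR1 : (1 : ℝ) ≤ R := (le_max_left _ _).trans hR
  refine ⟨?_, by linarith, ?_, ?_⟩
  · unfold Prm.tu Prm.sg
    linarith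
  · unfold r2
    positivity
  · unfold r2
    exact (Real.rpow_le_rpow_of_exponent_le hR1 (by linarith)).trans h3

theorem RIB_exp {τ : ℝ} (hτ : 2 ≤ τ) : Real.exp (9 / 10 * τ) ≤ 99 / 100 * (Real.exp (99 / 100 * τ) * (99 / 100)) := by
  have h1 : Real.exp (99 / 100 * τ) = Real.exp (9 / 10 * τ) * Real.exp (9 / 100 * τ) := by
    rw [← Real.exp_add]
    congr 1
    ring
  have h2 : 9 / 100 * τ + 1 ≤ Real.exp (9 / 100 * τ) := Real.add_one_le_exp _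
  have h3 : 0 < Real.exp (9 / 10 * τ) := Real.exp_pos _
  rw [h1]
  nlinarith

theorem RIB_curve (hRGF : RGF_stmt) (hRJT : RJT_stmt) {d : ℝ} {D : Dyn} (hF : FF d D) (hd : 0 < d) (hd1 : d ≤ 1 / 10000)
    {E : ℝ} {γ : ℝ → SL(2, ℝ)} {x b c ℓ : ℝ → ℝ} (hE : |E| ≤ d / 4) (hγ : RG 1 γ x b c ℓ) {τ : ℝ} (hτ : 2 ≤ τ)
    {y1 y2 : SL(2, ℝ)} (hy1 : nm y1 ≤ 1 / 10000) (hy2 : nm y2 ≤ 1 / 10000) (h : SL(2, ℝ)) :
    ∃ x' b' c' ℓ' : ℝ → ℝ, RG 1 (fun u => h * (D.fl E τ (γ u * y1) * y2)) x' b' c' ℓ' ∧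
      ∀ v v' : ℝ, v ≤ v' → Real.exp (9 / 10 * τ) * (ℓ v' - ℓ v) ≤ ℓ' v' - ℓ' v := by
  obtain ⟨j1, j2, -, -, -⟩ := hRJT
  obtain ⟨x1, b1, c1, l1, g1, g1'⟩ := j1 1 γ x b c ℓ y1 (Or.inr rfl) hγ hy1
  rw [mul_one] at g1
  obtain ⟨X, Y, Z, L, -, -, -, hL0, hLg, -, hG⟩ := hRGF d D hF hd hd1 E _ x1 b1 c1 l1 hE g1
  obtain ⟨x3, b3, c3, l3, g3, g3'⟩ := j1 (1 / 2) _ _ _ _ _ y2 (Or.inl rfl) (hG τ hτ) hy2
  have e1 : (2 : ℝ) * (1 / 2) = 1 := by norm_num
  rw [e1] at g3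
  refine ⟨x3, b3, c3, l3, j2 1 _ x3 b3 c3 l3 h g3, fun v v' hv => ?_⟩
  have a1 := (g1' v v' hv).1
  have a1' := (g1' v v' hv).2
  have a2 := (hLg 0 τ v v' le_rfl (by linarith) hv).1
  have a3 := (g3' v v' hv).1
  rw [hL0, sub_zero] at a2
  have hn : 0 ≤ ℓ v' - ℓ v := by linarith
  have he := RIB_exp hτ
  have hp : 0 < Real.exp (99 / 100 * τ) := Real.exp_pos _
  calc Real.exp (9 / 10 * τ) * (ℓ v' - ℓ v) ≤ 99 / 100 * (Real.exp (99 / 100 * τ) * (99 / 100)) * (ℓ v' - ℓ v) :=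
        mul_le_mul_of_nonneg_right he hn
    _ = 99 / 100 * (Real.exp (99 / 100 * τ) * (99 / 100 * (ℓ v' - ℓ v))) := by ring
    _ ≤ 99 / 100 * (Real.exp (99 / 100 * τ) * (l1 v' - l1 v)) := by gcongr
    _ ≤ 99 / 100 * (L τ v' - L τ v) := by gcongr
    _ ≤ l3 v' - l3 v := a3

theorem RIB_cont {γ : ℝ → SL(2, ℝ)} {x b c : ℝ → ℝ} (h : Cv γ x b c) : Continuous γ := by
  refine continuous_induced_rng.2 (continuous_matrix fun i j => ?_)
  exact continuous_iff_continuousAt.2 fun v => (h.der v i j).continuousAt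

theorem RIB_vol {r : ℝ} (hr : 0 ≤ r) : volume (bx r) = ENNReal.ofReal (16 * r ^ 4) := by
  unfold bx
  rw [Measure.volume_eq_prod, Measure.prod_prod, Measure.volume_eq_prod, Measure.prod_prod, Measure.volume_eq_prod,
    Measure.prod_prod, Real.volume_Icc, ← ENNReal.ofReal_mul (by linarith), ← ENNReal.ofReal_mul (by linarith),
    ← ENNReal.ofReal_mul (by linarith)]
  congr 1
  ring

theorem RIB_ton (D : Dyn) (τ r : ℝ) (hr : 0 ≤ r)
    (hPhi : Measurable fun q : (SL(2, ℝ) × ℝ) × (ℝ × ℝ × ℝ × ℝ) => Phi D τ q.1 q.2)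
    (W : SL(2, ℝ) × ℝ → ℝ≥0∞) (hWm : Measurable W) (E : ℝ) (γ : ℝ → SL(2, ℝ)) (hγc : Continuous γ) (v v' : ℝ) (K : ℝ≥0∞)
    (hin : ∀ u1 x1 s1 ε : ℝ, |u1| ≤ r → |x1| ≤ r → |s1| ≤ r → |ε| ≤ r → ∀ h : SL(2, ℝ),
      ∫⁻ u in Icc v v', W (h * (D.fl E τ (γ u * lM u1) * (nM x1 * aM s1)), E + ε) ≤ K) :
    ∫⁻ u in Icc v v', (∫⁻ o in bx r, W (Phi D τ (γ u, E) o) + W (ngM * (Phi D τ (γ u, E) o).1, (Phi D τ (γ u, E) o).2)) ≤
      2 * K * ENNReal.ofReal (16 * r ^ 4) := by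
  have hng : Measurable (fun q : SL(2, ℝ) × ℝ => (ngM * q.1, q.2)) :=
    ((continuous_const.mul continuous_id).measurable.comp measurable_fst).prodMk measurable_snd
  have hjoint : Measurable (fun q : ℝ × (ℝ × ℝ × ℝ × ℝ) => Phi D τ (γ q.1, E) q.2) := by
    have h1 : Measurable (fun q : ℝ × (ℝ × ℝ × ℝ × ℝ) => (((γ q.1, E), q.2) : (SL(2, ℝ) × ℝ) × (ℝ × ℝ × ℝ × ℝ))) :=
      ((hγc.measurable.comp measurable_fst).prodMk measurable_const).prodMk measurable_snd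
    have h2 := hPhi.comp h1
    exact h2
  have hf : Measurable (fun q : ℝ × (ℝ × ℝ × ℝ × ℝ) => W (Phi D τ (γ q.1, E) q.2) +
      W (ngM * (Phi D τ (γ q.1, E) q.2).1, (Phi D τ (γ q.1, E) q.2).2)) :=
    (hWm.comp hjoint).add (hWm.comp (hng.comp hjoint))
  have hinner : ∀ o ∈ bx r, ∫⁻ u in Icc v v', (W (Phi D τ (γ u, E) o) +
      W (ngM * (Phi D τ (γ u, E) o).1, (Phi D τ (γ u, E) o).2)) ≤ 2 * K := by
    intro o ho
    have hu1 : |o.1| ≤ r := abs_le.2 ho.1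
    have hx1 : |o.2.1| ≤ r := abs_le.2 ho.2.1
    have hs1 : |o.2.2.1| ≤ r := abs_le.2 ho.2.2.1
    have hε : |o.2.2.2| ≤ r := abs_le.2 ho.2.2.2
    have hcur := hin o.1 o.2.1 o.2.2.1 o.2.2.2 hu1 hx1 hs1 hε
    have hpt : ∀ u : ℝ, Phi D τ (γ u, E) o = (1 * (D.fl E τ (γ u * lM o.1) * (nM o.2.1 * aM o.2.2.1)), E + o.2.2.2) := by
      intro u
      unfold Phi
      rw [one_mul, mul_assoc]
    have hpt' : ∀ u : ℝ, (ngM * (Phi D τ (γ u, E) o).1, (Phi D τ (γ u, E) o).2) =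
        (ngM * (D.fl E τ (γ u * lM o.1) * (nM o.2.1 * aM o.2.2.1)), E + o.2.2.2) := by
      intro u
      rw [hpt u, one_mul]
    have hm1 : Measurable (fun u : ℝ => W (Phi D τ (γ u, E) o)) := by
      have h0 : Measurable (fun u : ℝ => ((u, o) : ℝ × (ℝ × ℝ × ℝ × ℝ))) := measurable_id.prodMk measurable_const
      have h1 := hjoint.comp h0
      have h2 := hWm.comp h1
      exact h2
    rw [lintegral_add_left hm1, two_mul]
    refine add_le_add ?_ ?_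
    · simp only [hpt]
      exact hcur 1
    · simp only [hpt']
      exact hcur ngM
  rw [lintegral_lintegral_swap hf.aemeasurable]
  have hbm : MeasurableSet (bx r) :=
    measurableSet_Icc.prod (measurableSet_Icc.prod (measurableSet_Icc.prod measurableSet_Icc))
  calc ∫⁻ o in bx r, (∫⁻ u in Icc v v', (W (Phi D τ (γ u, E) o) +
        W (ngM * (Phi D τ (γ u, E) o).1, (Phi D τ (γ u, E) o).2)))
      ≤ ∫⁻ _ in bx r, 2 * K := setLIntegral_mono' hbm hinner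
    _ = 2 * K * ENNReal.ofReal (16 * r ^ 4) := by
        rw [setLIntegral_const, RIB_vol hr]

theorem RIB_proof (hRFF : RFF_stmt) (hRGF : RGF_stmt) (hRJT : RJT_stmt) (hRMS : RMS_stmt) : RIB_stmt := by
  intro Γ hΓ
  obtain ⟨K, δ1, hK, hδ1, hFF⟩ := hRFF Γ hΓ
  obtain ⟨δ2, hδ2, hMS⟩ := hRMS Γ hΓ
  have hK0 : 0 < K := by linarith
  have hKi : 0 < 1 / (10000 * K) := by positivity
  refine ⟨min (min δ1 δ2) (1 / (10000 * K)), lt_min (lt_min hδ1 hδ2) hKi, fun A hA => ?_⟩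
  set δ0 : ℝ := min (min δ1 δ2) (1 / (10000 * K)) with hδ0
  have hδ0p : 0 < δ0 := lt_min (lt_min hδ1 hδ2) hKi
  have hd0 : 0 < K * δ0 := mul_pos hK0 hδ0p
  have hd1 : K * δ0 ≤ 1 / 10000 := by
    have h1 : δ0 ≤ 1 / (10000 * K) := min_le_right _ _
    calc K * δ0 ≤ K * (1 / (10000 * K)) := by gcongr
      _ = 1 / 10000 := by field_simp
  obtain ⟨R0, hR01, hR0⟩ := RIB_R0 A hA (K * δ0) hd0
  refine ⟨R0, hR01, fun B R D V θ l0 hR hD hV hθ hl0 H => ?_⟩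
  obtain ⟨hτ, hE4, hr0, hr1⟩ := hR0 R hR
  have hF : FF (K * δ0) D := hFF δ0 B D hδ0p ((min_le_left _ _).trans (min_le_left _ _)) hD
  obtain ⟨hPhi, hPV, -⟩ := hMS B D (RIB_okd hD ((min_le_left _ _).trans (min_le_right _ _)))
  have hmeas : ∀ n : ℕ, Measurable ((PV D A R)^[n] V) := by
    intro n
    induction n with
    | zero => exact hV
    | succ n ih =>
      rw [Function.iterate_succ_apply']
      exact hPV A R _ ih
  intro n
  induction n with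
  | zero =>
    intro E γ x b c ℓ v v' hE hγ hv hl
    have h1 : |E| ≤ 2 * R ^ (-(1 / 4) : ℝ) := by
      simpa using hE
    have h2 : l0 ≤ ℓ v' - ℓ v := by
      simpa using hl
    have h3 := H E γ x b c ℓ v v' h1 (hRJT.2.2.1 1 2 γ x b c ℓ one_pos one_le_two hγ) hv h2
    simpa using h3
  | succ n ih =>
    intro E γ x b c ℓ v v' hE hγ hv hl
    have hWm := hmeas n
    rw [Function.iterate_succ_apply']
    generalize (PV D A R)^[n] V = W at ih hWm ⊢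
    have hEd : |E| ≤ K * δ0 / 4 := by
      have : (0 : ℝ) ≤ ((n + 1 : ℕ) : ℝ) * r2 A R := by positivity
      linarith
    have hγc : Continuous γ := RIB_cont hγ.toCC.toCv
    have key := RIB_ton D (A.tu R) (r2 A R) hr0 (hPhi (A.tu R)) W hWm E γ hγc v v'
      (ENNReal.ofReal ((32 * r2 A R ^ 4) ^ n * θ * (v' - v))) (fun u1 x1 s1 ε hu1 hx1 hs1 hε h => by
        have hy1 : nm (lM u1) ≤ 1 / 10000 := (RIB_lM hu1).trans (by linarith)
        have hy2 : nm (nM x1 * aM s1) ≤ 1 / 10000 := RIB_na hr0 hr1 hx1 hs1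
        have hE' : |E + ε| + n * r2 A R ≤ 2 * R ^ (-(1 / 4) : ℝ) := by
          have h1 : |E + ε| ≤ |E| + |ε| := abs_add_le _ _
          push_cast at hE
          linarith
        obtain ⟨x', b', c', l', g', gl⟩ := RIB_curve hRGF hRJT hF hd0 hd1 hEd hγ hτ hy1 hy2 h
        refine ih (E + ε) _ x' b' c' l' v v' hE' g' hv ?_
        have h1 := gl v v' hv.le
        have h2 : Real.exp (9 / 10 * (((n + 1 : ℕ) : ℝ) * A.tu R)) = Real.exp (9 / 10 * (n * A.tu R)) * Real.exp (9 / 10 * A.tu R) := by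
          rw [← Real.exp_add]
          congr 1
          push_cast
          ring
        rw [h2, mul_assoc] at hl
        exact hl.trans (mul_le_mul_of_nonneg_left h1 (Real.exp_pos _).le))
    refine (le_of_eq_of_le ?_ key).trans (le_of_eq ?_)
    · rfl
    · have h2 : (2 : ℝ≥0∞) = ENNReal.ofReal 2 := by simp
      have h3 : 0 ≤ v' - v := by linarith
      rw [h2, ← ENNReal.ofReal_mul (by norm_num), ← ENNReal.ofReal_mul (by positivity)]
      congr 1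
      ring

end Pool.Agent.VQ
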